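import Mathlib

set_option autoImplicit false
open scoped Pointwise
open Filter Topology MeasureTheory ProbabilityTheory

namespace Pool.Agent.Results.MP_217de7_gt.ZonoidPolarFar


section Defs

variable {E : Type*} [NormedAddCommGroup E] [InnerProductSpace ℝ E]

/-- The polar of a set. -/
def polarBody (K : Set E) : Set E := {y | ∀ x ∈ K, inner ℝ x y ≤ (1 : ℝ)}

/-- A zonotope: a finite Minkowski sum of line segments. -/
def IsZonotope (Z : Set E) : Prop :=
  ∃ (m : ℕ) (a b : Fin m → E), Z = ∑ i, segment ℝ (a i) (b i)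

/-- A zonoid: a nonempty compact set that is a Hausdorff limit of zonotopes. -/
def IsZonoid (Z : Set E) : Prop :=
  IsCompact Z ∧ Z.Nonempty ∧
    ∃ P : ℕ → Set E, (∀ k, IsZonotope (P k)) ∧
      Tendsto (fun k => Metric.hausdorffDist (P k) Z) atTop (𝓝 0)

/-- Origin-symmetric convex bodies. -/
def IsSymmBody (K : Set E) : Prop :=
  IsCompact K ∧ Convex ℝ K ∧ (interior K).Nonempty ∧ ∀ x ∈ K, -x ∈ K

/-- The class `𝒵_n`: origin-symmetric convex bodies that are zonoids and whose polar is a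
zonoid. -/
def InClass (Z : Set E) : Prop := IsSymmBody Z ∧ IsZonoid Z ∧ IsZonoid (polarBody Z)

/-- The Banach-Mazur distance of two sets. -/
noncomputable def bmDist (K L : Set E) : ℝ :=
  sInf {c : ℝ | 1 ≤ c ∧ ∃ T : E ≃ₗ[ℝ] E, L ⊆ T '' K ∧ T '' K ⊆ c • L}

theorem mem_segment_neg {v y : E} : y ∈ segment ℝ (-v) v ↔ ∃ t : ℝ, |t| ≤ 1 ∧ y = t • v := by
  constructor
  · rintro ⟨a, b, ha, hb, hab, rfl⟩
    refine ⟨b - a, abs_le.mpr ⟨by linarith, by linarith⟩, ?_⟩
    rw [smul_neg, sub_smul]; abel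
  · rintro ⟨t, ht, rfl⟩
    obtain ⟨h1, h2⟩ := abs_le.mp ht
    refine ⟨(1 - t) / 2, (1 + t) / 2, by linarith, by linarith, by ring, ?_⟩
    rw [smul_neg, ← neg_smul, ← add_smul]
    congr 1; ring

theorem isZonotope_of_sym {m : ℕ} (v : Fin m → E) :
    IsZonotope {x | ∃ t : Fin m → ℝ, (∀ i, |t i| ≤ 1) ∧ x = ∑ i, t i • v i} := by
  refine ⟨m, fun i => -v i, v, ?_⟩
  ext x
  rw [Set.mem_fintype_sum]
  constructor
  · rintro ⟨t, ht, rfl⟩
    exact ⟨fun i => t i • v i, fun i => mem_segment_neg.mpr ⟨t i, ht i, rfl⟩, rfl⟩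
  · rintro ⟨g, hg, rfl⟩
    choose t ht1 ht2 using fun i => mem_segment_neg.mp (hg i)
    exact ⟨t, ht1, Finset.sum_congr rfl fun i _ => ht2 i⟩

/-- the set with given support function -/
def suppSet (h : E → ℝ) : Set E := {x | ∀ z, inner ℝ x z ≤ h z}

theorem suppSet_isClosed (h : E → ℝ) : IsClosed (suppSet h) := by
  have : suppSet h = ⋂ z, {x | inner ℝ x z ≤ h z} := by ext x; simp [suppSet]
  rw [this]
  exact isClosed_iInter fun z => isClosed_le (by fun_prop) continuous_const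

theorem suppSet_convex (h : E → ℝ) : Convex ℝ (suppSet h) := by
  intro x hx y hy a b ha hb hab z
  rw [inner_add_left, real_inner_smul_left, real_inner_smul_left]
  calc a * inner ℝ x z + b * inner ℝ y z ≤ a * h z + b * h z := by
        gcongr
        · exact hx z
        · exact hy z
    _ = h z := by rw [← add_mul, hab, one_mul]

theorem suppSet_compact [FiniteDimensional ℝ E] {h : E → ℝ} {C : ℝ} (hC : ∀ z, h z ≤ C * ‖z‖) :
    IsCompact (suppSet h) := by
  refine Metric.isCompact_of_isClosed_isBounded (suppSet_isClosed h) ?_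
  refine (Metric.isBounded_closedBall (x := (0:E)) (r := |C|)).subset ?_
  intro x hx
  rw [mem_closedBall_zero_iff]
  by_contra hcon
  push Not at hcon
  have h1 := (hx x).trans (hC x)
  rw [real_inner_self_eq_norm_sq] at h1
  have h2 := le_abs_self C
  have h3 := abs_nonneg C
  have : 0 < ‖x‖ := lt_of_le_of_lt h3 hcon
  nlinarith

/-- separation: closeness of support functions gives closeness of sets -/
theorem exists_close [FiniteDimensional ℝ E] {A B : Set E} {h1 h2 : E → ℝ} {ε : ℝ} (hε : 0 ≤ ε)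
    (hA : ∀ x ∈ A, ∀ z, inner ℝ x z ≤ h1 z) (hBc : IsCompact B) (hBv : Convex ℝ B)
    (hB : ∀ z, ∃ b ∈ B, h2 z ≤ inner ℝ b z) (h12 : ∀ z, h1 z ≤ h2 z + ε * ‖z‖) :
    ∀ x ∈ A, ∃ y ∈ B, dist x y ≤ ε := by
  intro x hx
  by_contra hcon
  push Not at hcon
  have hS : IsCompact (B + Metric.closedBall (0 : E) ε) := hBc.add (isCompact_closedBall _ _)
  have hSv : Convex ℝ (B + Metric.closedBall (0 : E) ε) := hBv.add (convex_closedBall _ _)
  have hxS : x ∉ B + Metric.closedBall (0 : E) ε := by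
    rintro ⟨b, hb, c, hc, rfl⟩
    have := hcon b hb
    rw [dist_eq_norm] at this
    rw [mem_closedBall_zero_iff] at hc
    simp at this
    linarith
  obtain ⟨f, u, hfu, hux⟩ := geometric_hahn_banach_closed_point hSv hS.isClosed hxS
  obtain ⟨z, rfl⟩ := (InnerProductSpace.toDual ℝ E).surjective f
  simp only [InnerProductSpace.toDual_apply_apply] at hfu hux
  obtain ⟨b, hb, hbz⟩ := hB z
  have hmem : (ε / ‖z‖) • z ∈ Metric.closedBall (0 : E) ε := by
    rw [mem_closedBall_zero_iff, norm_smul, Real.norm_of_nonneg (by positivity)]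
    by_cases h0 : ‖z‖ = 0
    · simp [h0, hε]
    · field_simp; exact le_refl _
  have h3 := hfu _ ⟨b, hb, _, hmem, rfl⟩
  simp only [inner_add_right, inner_smul_right, real_inner_self_eq_norm_sq] at h3
  have h4 : ε / ‖z‖ * ‖z‖ ^ 2 = ε * ‖z‖ := by
    by_cases h0 : ‖z‖ = 0
    · simp [h0]
    · field_simp
  rw [h4, real_inner_comm] at h3
  have h5 := hA x hx z
  have h6 := h12 z
  rw [real_inner_comm] at hux
  linarith

theorem isZonotope_props {m : ℕ} (v : Fin m → E) :
    let Z : Set E := {x | ∃ t : Fin m → ℝ, (∀ i, |t i| ≤ 1) ∧ x = ∑ i, t i • v i}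
    IsCompact Z ∧ Convex ℝ Z ∧ (∀ x ∈ Z, ∀ z, inner ℝ x z ≤ ∑ i, |inner ℝ z (v i)|) ∧
      (∀ z, ∃ b ∈ Z, ∑ i, |inner ℝ z (v i)| ≤ inner ℝ b z) := by
  intro Z
  have hZ : Z = (fun t : Fin m → ℝ => ∑ i, t i • v i) '' (Set.univ.pi fun _ => Set.Icc (-1) 1) := by
    ext x
    constructor
    · rintro ⟨t, ht, rfl⟩
      exact ⟨t, fun i _ => abs_le.mp (ht i), rfl⟩
    · rintro ⟨t, ht, rfl⟩
      exact ⟨t, fun i => abs_le.mpr (ht i (Set.mem_univ i)), rfl⟩
  refine ⟨?_, ?_, ?_, ?_⟩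
  · rw [hZ]
    exact (isCompact_univ_pi fun _ => isCompact_Icc).image (by fun_prop)
  · rintro x ⟨s, hs, rfl⟩ y ⟨t, ht, rfl⟩ a b ha hb hab
    refine ⟨fun i => a * s i + b * t i, fun i => ?_, ?_⟩
    · calc |a * s i + b * t i| ≤ |a * s i| + |b * t i| := abs_add_le _ _
        _ = a * |s i| + b * |t i| := by rw [abs_mul, abs_mul, abs_of_nonneg ha, abs_of_nonneg hb]
        _ ≤ a * 1 + b * 1 := by
            gcongr
            · exact hs i
            · exact ht i
        _ = 1 := by linarith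
    · simp only [Finset.smul_sum, add_smul, Finset.sum_add_distrib, smul_smul]
  · rintro x ⟨t, ht, rfl⟩ z
    rw [sum_inner]
    refine Finset.sum_le_sum fun i _ => ?_
    rw [real_inner_smul_left, real_inner_comm]
    calc t i * inner ℝ z (v i) ≤ |t i * inner ℝ z (v i)| := le_abs_self _
      _ = |t i| * |inner ℝ z (v i)| := abs_mul _ _
      _ ≤ 1 * |inner ℝ z (v i)| := by gcongr; exact ht i
      _ = _ := one_mul _
  · intro z
    refine ⟨_, ⟨fun i => if 0 ≤ inner ℝ z (v i) then 1 else -1, fun i => ?_, rfl⟩, ?_⟩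
    · dsimp only; split_ifs <;> simp
    · rw [sum_inner]
      refine Finset.sum_le_sum fun i _ => ?_
      rw [real_inner_smul_left, real_inner_comm z (v i)]
      dsimp only
      split_ifs with h
      · rw [abs_of_nonneg h, one_mul]
      · push Not at h
        rw [abs_of_neg h]; simp

section Rep

variable {Ω : Type*} [MeasurableSpace Ω]

/-- the function `z ↦ ∫ |⟨z, v ω⟩| dμ` -/
noncomputable def cosT (μ : Measure Ω) (v : Ω → E) (z : E) : ℝ := ∫ ω, |inner ℝ z (v ω)| ∂μ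

theorem integrable_abs_inner {μ : Measure Ω} {v : Ω → E} (hv : Integrable v μ) (z : E) :
    Integrable (fun ω => |inner ℝ z (v ω)|) μ := (hv.const_inner z).abs

theorem cosT_le {μ : Measure Ω} {v : Ω → E} (hv : Integrable v μ) (z : E) :
    cosT μ v z ≤ (∫ ω, ‖v ω‖ ∂μ) * ‖z‖ := by
  rw [← integral_mul_const]
  refine integral_mono (integrable_abs_inner hv z) (hv.norm.mul_const _) fun ω => ?_
  show |inner ℝ z (v ω)| ≤ ‖v ω‖ * ‖z‖
  rw [mul_comm]
  exact abs_real_inner_le_norm z (v ω)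

theorem cosT_attained [CompleteSpace E] {μ : Measure Ω} {v : Ω → E} (hv : Integrable v μ) (z : E) :
    ∃ b ∈ suppSet (cosT μ v), cosT μ v z ≤ inner ℝ b z := by
  set s : Ω → ℝ := fun ω => if 0 ≤ inner ℝ z (v ω) then 1 else -1 with hs
  have hsm : AEStronglyMeasurable s μ := by
    have h1 : AEMeasurable (fun ω => inner ℝ z (v ω)) μ := (hv.const_inner z).aemeasurable
    have h2 : Measurable (fun t : ℝ => if 0 ≤ t then (1 : ℝ) else -1) :=
      Measurable.ite measurableSet_Ici measurable_const measurable_const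
    exact (h2.comp_aemeasurable h1).aestronglyMeasurable
  have hs1 : ∀ ω, ‖s ω‖ ≤ 1 := by
    intro ω; simp only [hs]; split_ifs <;> simp
  have hint : Integrable (fun ω => s ω • v ω) μ := by
    refine hv.mono (hsm.smul hv.aestronglyMeasurable) (Eventually.of_forall fun ω => ?_)
    rw [norm_smul]
    calc ‖s ω‖ * ‖v ω‖ ≤ 1 * ‖v ω‖ := by gcongr; exact hs1 ω
      _ = _ := one_mul _
  have hinner : ∀ w, inner ℝ (∫ ω, s ω • v ω ∂μ) w = ∫ ω, s ω * inner ℝ w (v ω) ∂μ := by
    intro w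
    rw [real_inner_comm, ← integral_inner hint]
    simp only [inner_smul_right]
  refine ⟨∫ ω, s ω • v ω ∂μ, ?_, ?_⟩
  · intro w
    rw [hinner]
    have hi2 : Integrable (fun ω => s ω * inner ℝ w (v ω)) μ := by
      have := Integrable.const_inner (𝕜 := ℝ) w hint
      simpa only [inner_smul_right] using this
    refine integral_mono hi2 (integrable_abs_inner hv w) fun ω => ?_
    show s ω * inner ℝ w (v ω) ≤ |inner ℝ w (v ω)|
    calc s ω * inner ℝ w (v ω) ≤ |s ω * inner ℝ w (v ω)| := le_abs_self _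
      _ = |s ω| * |inner ℝ w (v ω)| := abs_mul _ _
      _ ≤ 1 * |inner ℝ w (v ω)| := by gcongr; exact hs1 ω
      _ = _ := one_mul _
  · rw [hinner]
    refine le_of_eq (integral_congr_ae (Eventually.of_forall fun ω => ?_))
    show |inner ℝ z (v ω)| = s ω * inner ℝ z (v ω)
    simp only [hs]
    split_ifs with h
    · rw [abs_of_nonneg h, one_mul]
    · push Not at h
      rw [abs_of_neg h]; ring

theorem suppSet_sum_eq [FiniteDimensional ℝ E] {m : ℕ} (v : Fin m → E) :
    {x | ∃ t : Fin m → ℝ, (∀ i, |t i| ≤ 1) ∧ x = ∑ i, t i • v i} =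
      suppSet (fun z => ∑ i, |inner ℝ z (v i)|) := by
  obtain ⟨h1, h2, h3, h4⟩ := isZonotope_props v
  refine Set.Subset.antisymm (fun x hx z => h3 x hx z) ?_
  intro x hx
  obtain ⟨y, hy, hxy⟩ := exists_close (A := suppSet (fun z => ∑ i, |inner ℝ z (v i)|))
    (h1 := fun z => ∑ i, |inner ℝ z (v i)|) (h2 := fun z => ∑ i, |inner ℝ z (v i)|)
    (le_refl (0:ℝ)) (fun x hx z => hx z) h1 h2 h4 (fun z => by simp) x hx
  have : x = y := dist_le_zero.mp hxy
  rw [this]; exact hy

theorem isZonotope_simple [FiniteDimensional ℝ E] [MeasurableSpace E] [BorelSpace E]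
    {μ : Measure Ω} (g : SimpleFunc Ω E) (hg : Integrable g μ) :
    IsZonotope (suppSet (cosT μ g)) := by
  classical
  have key : cosT μ g = fun z => ∑ i : Fin g.range.card,
      |inner ℝ z (μ.real (g ⁻¹' {(g.range.equivFin.symm i : E)}) • (g.range.equivFin.symm i : E))| := by
    funext z
    have h1 := SimpleFunc.map_integral (μ := μ) g (fun c => |inner ℝ z c|) hg (by simp)
    have h2 : (g.map fun c => |inner ℝ z c|).integral μ = ∫ ω, |inner ℝ z (g ω)| ∂μ := by
      rw [SimpleFunc.integral_eq_integral]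
      · rfl
      · exact integrable_abs_inner hg z
    rw [cosT, ← h2, h1, ← Finset.sum_coe_sort, ← (g.range.equivFin.symm).sum_comp]
    refine Finset.sum_congr rfl fun i _ => ?_
    rw [inner_smul_right, abs_mul, abs_of_nonneg measureReal_nonneg, smul_eq_mul]
  rw [key, ← suppSet_sum_eq]
  exact isZonotope_of_sym _

theorem cosT_sub_le {μ : Measure Ω} {v w : Ω → E} (hv : Integrable v μ) (hw : Integrable w μ)
    (z : E) : cosT μ v z ≤ cosT μ w z + (∫ ω, ‖v ω - w ω‖ ∂μ) * ‖z‖ := by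
  have hi : Integrable (fun ω => ‖v ω - w ω‖ * ‖z‖) μ := (hv.sub hw).norm.mul_const _
  rw [← integral_mul_const, cosT, cosT, ← integral_add (integrable_abs_inner hw z) hi]
  refine integral_mono (integrable_abs_inner hv z)
    ((integrable_abs_inner hw z).add hi) fun ω => ?_
  show |inner ℝ z (v ω)| ≤ |inner ℝ z (w ω)| + ‖v ω - w ω‖ * ‖z‖
  have e : inner ℝ z (v ω) = inner ℝ z (w ω) + inner ℝ z (v ω - w ω) := by
    rw [← inner_add_right]; congr 1; abel
  rw [e]
  refine (abs_add_le _ _).trans ?_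
  have := abs_real_inner_le_norm z (v ω - w ω)
  linarith

theorem hausdorffDist_cosT [FiniteDimensional ℝ E] {μ : Measure Ω} {v w : Ω → E}
    (hv : Integrable v μ) (hw : Integrable w μ) :
    Metric.hausdorffDist (suppSet (cosT μ v)) (suppSet (cosT μ w)) ≤ ∫ ω, ‖v ω - w ω‖ ∂μ := by
  have h0 : 0 ≤ ∫ ω, ‖v ω - w ω‖ ∂μ := integral_nonneg fun _ => norm_nonneg _
  refine Metric.hausdorffDist_le_of_mem_dist h0 ?_ ?_
  · exact exists_close h0 (fun x hx z => hx z) (suppSet_compact (cosT_le hw)) (suppSet_convex _)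
      (cosT_attained hw) (cosT_sub_le hv hw)
  · refine exists_close h0 (fun x hx z => hx z) (suppSet_compact (cosT_le hv)) (suppSet_convex _)
      (cosT_attained hv) fun z => ?_
    have := cosT_sub_le hw hv z
    have e : ∫ ω, ‖w ω - v ω‖ ∂μ = ∫ ω, ‖v ω - w ω‖ ∂μ := by
      congr 1; ext ω; exact norm_sub_rev _ _
    rwa [e] at this

theorem isZonoid_cosT [FiniteDimensional ℝ E] [MeasurableSpace E] [BorelSpace E]
    {μ : Measure Ω} {v : Ω → E} (hv : Integrable v μ) : IsZonoid (suppSet (cosT μ v)) := by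
  refine ⟨suppSet_compact (cosT_le hv), ?_, ?_⟩
  · obtain ⟨b, hb, -⟩ := cosT_attained hv 0
    exact ⟨b, hb⟩
  · have hmem : MemLp v 1 μ := memLp_one_iff_integrable.mpr hv
    have hex : ∀ k : ℕ, ∃ g : SimpleFunc Ω E, Integrable g μ ∧
        ∫ ω, ‖v ω - g ω‖ ∂μ ≤ 1 / ((k : ℝ) + 1) := by
      intro k
      obtain ⟨g, hg1, hg2⟩ := hmem.exists_simpleFunc_eLpNorm_sub_lt (by simp)
        (ε := ENNReal.ofReal (1 / ((k : ℝ) + 1))) (by
          simp only [ne_eq, ENNReal.ofReal_eq_zero, not_le]; positivity)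
      have hg3 : Integrable g μ := memLp_one_iff_integrable.mp hg2
      refine ⟨g, hg3, ?_⟩
      have h1 : ∫ ω, ‖v ω - g ω‖ ∂μ = (eLpNorm (v - ⇑g) 1 μ).toReal := by
        have h2 := integral_norm_eq_lintegral_enorm (μ := μ) (f := v - ⇑g)
          (hv.sub hg3).aestronglyMeasurable
        rw [eLpNorm_one_eq_lintegral_enorm, ← h2]
        rfl
      rw [h1]
      exact (ENNReal.toReal_mono ENNReal.ofReal_ne_top hg1.le).trans
        (le_of_eq (ENNReal.toReal_ofReal (by positivity)))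
    choose g hg1 hg2 using hex
    refine ⟨fun k => suppSet (cosT μ (g k)), fun k => isZonotope_simple (g k) (hg1 k), ?_⟩
    refine squeeze_zero (fun _ => Metric.hausdorffDist_nonneg) (fun k => ?_)
      (tendsto_one_div_add_atTop_nhds_zero_nat (𝕜 := ℝ))
    rw [Metric.hausdorffDist_comm]
    exact (hausdorffDist_cosT hv (hg1 k)).trans (hg2 k)

end Rep

end Defs


section Contour

/-- the open strip -/
def strip : Set ℂ := {p | |p.im| < Real.pi / 2}

theorem isOpen_strip : IsOpen strip := by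
  unfold strip
  exact isOpen_lt (by fun_prop) continuous_const

theorem ccosh_re (p : ℂ) : (Complex.cosh p).re = Real.cosh p.re * Real.cos p.im := by
  conv_lhs => rw [← Complex.re_add_im p]
  rw [Complex.cosh_add, Complex.cosh_mul_I, Complex.sinh_mul_I]
  simp [← Complex.ofReal_cosh, ← Complex.ofReal_sinh, ← Complex.ofReal_cos, ← Complex.ofReal_sin]

theorem ccosh_im (p : ℂ) : (Complex.cosh p).im = Real.sinh p.re * Real.sin p.im := by
  conv_lhs => rw [← Complex.re_add_im p]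
  rw [Complex.cosh_add, Complex.cosh_mul_I, Complex.sinh_mul_I]
  simp [← Complex.ofReal_cosh, ← Complex.ofReal_sinh, ← Complex.ofReal_cos, ← Complex.ofReal_sin]

theorem csinh_re (p : ℂ) : (Complex.sinh p).re = Real.sinh p.re * Real.cos p.im := by
  conv_lhs => rw [← Complex.re_add_im p]
  rw [Complex.sinh_add, Complex.cosh_mul_I, Complex.sinh_mul_I]
  simp [← Complex.ofReal_cosh, ← Complex.ofReal_sinh, ← Complex.ofReal_cos, ← Complex.ofReal_sin]

theorem csinh_im (p : ℂ) : (Complex.sinh p).im = Real.cosh p.re * Real.sin p.im := by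
  conv_lhs => rw [← Complex.re_add_im p]
  rw [Complex.sinh_add, Complex.cosh_mul_I, Complex.sinh_mul_I]
  simp [← Complex.ofReal_cosh, ← Complex.ofReal_sinh, ← Complex.ofReal_cos, ← Complex.ofReal_sin]

theorem ccosh_re_pos {p : ℂ} (hp : p ∈ strip) : 0 < (Complex.cosh p).re := by
  rw [ccosh_re]
  have h := abs_lt.mp (show |p.im| < Real.pi / 2 from hp)
  exact mul_pos (Real.cosh_pos _) (Real.cos_pos_of_mem_Ioo ⟨h.1, h.2⟩)

theorem norm_ccosh_sq (p : ℂ) :
    ‖Complex.cosh p‖ ^ 2 = Real.sinh p.re ^ 2 + Real.cos p.im ^ 2 := by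
  rw [← Complex.normSq_eq_norm_sq, Complex.normSq_apply, ccosh_re, ccosh_im]
  have h1 := Real.cosh_sq p.re
  have h2 := Real.sin_sq_add_cos_sq p.im
  have e : Real.cosh p.re * Real.cos p.im * (Real.cosh p.re * Real.cos p.im) +
      Real.sinh p.re * Real.sin p.im * (Real.sinh p.re * Real.sin p.im) =
      Real.cosh p.re ^ 2 * Real.cos p.im ^ 2 + Real.sinh p.re ^ 2 * Real.sin p.im ^ 2 := by ring
  rw [e, h1]
  linear_combination Real.sinh p.re ^ 2 * h2

theorem norm_csinh_sq (p : ℂ) :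
    ‖Complex.sinh p‖ ^ 2 = Real.sinh p.re ^ 2 + Real.sin p.im ^ 2 := by
  rw [← Complex.normSq_eq_norm_sq, Complex.normSq_apply, csinh_re, csinh_im]
  have h1 := Real.cosh_sq p.re
  have h2 := Real.sin_sq_add_cos_sq p.im
  have e : Real.sinh p.re * Real.cos p.im * (Real.sinh p.re * Real.cos p.im) +
      Real.cosh p.re * Real.sin p.im * (Real.cosh p.re * Real.sin p.im) =
      Real.sinh p.re ^ 2 * Real.cos p.im ^ 2 + Real.cosh p.re ^ 2 * Real.sin p.im ^ 2 := by ring
  rw [e, h1]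
  linear_combination Real.sinh p.re ^ 2 * h2

theorem norm_ccosh_le (p : ℂ) : ‖Complex.cosh p‖ ≤ Real.cosh p.re := by
  refine (sq_le_sq₀ (norm_nonneg _) (Real.cosh_pos _).le).mp ?_
  rw [norm_ccosh_sq, Real.cosh_sq]
  have := Real.cos_sq_le_one p.im
  linarith

theorem norm_csinh_le (p : ℂ) : ‖Complex.sinh p‖ ≤ Real.cosh p.re := by
  refine (sq_le_sq₀ (norm_nonneg _) (Real.cosh_pos _).le).mp ?_
  rw [norm_csinh_sq, Real.cosh_sq]
  have := Real.sin_sq_le_one p.im
  linarith

theorem le_norm_ccosh {p : ℂ} (hp : 0 ≤ p.re) : Real.sinh p.re ≤ ‖Complex.cosh p‖ := by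
  refine (sq_le_sq₀ (Real.sinh_nonneg_iff.mpr hp) (norm_nonneg _)).mp ?_
  rw [norm_ccosh_sq]
  have := sq_nonneg (Real.cos p.im)
  linarith

/-- the analytic function `√(cosh p) (2 cosh p + 1) sinh p` -/
noncomputable def Hf (p : ℂ) : ℂ :=
  (Complex.cosh p) ^ (1 / 2 : ℂ) * (2 * Complex.cosh p + 1) * Complex.sinh p

theorem ccosh_mem_slit {p : ℂ} (hp : p ∈ strip) : Complex.cosh p ∈ Complex.slitPlane :=
  Or.inl (ccosh_re_pos hp)

theorem Hf_differentiableOn : DifferentiableOn ℂ Hf strip := by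
  intro p hp
  apply DifferentiableAt.differentiableWithinAt
  unfold Hf
  have h1 : DifferentiableAt ℂ (fun p => (Complex.cosh p) ^ (1 / 2 : ℂ)) p :=
    (Complex.differentiable_cosh p).cpow_const (ccosh_mem_slit hp)
  fun_prop

theorem Hf_neg (p : ℂ) : Hf (-p) = -Hf p := by
  unfold Hf
  rw [Complex.cosh_neg, Complex.sinh_neg]; ring

theorem Hf_conj {p : ℂ} (hp : p ∈ strip) :
    Hf ((starRingEnd ℂ) p) = (starRingEnd ℂ) (Hf p) := by
  unfold Hf
  have harg : (Complex.cosh p).arg ≠ Real.pi := Complex.slitPlane_arg_ne_pi (ccosh_mem_slit hp)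
  have h2 : (starRingEnd ℂ) (2 : ℂ) = 2 := map_ofNat _ 2
  rw [Complex.cosh_conj, Complex.sinh_conj, Complex.conj_cpow _ _ harg]
  simp [h2]

theorem norm_Hf_le {p : ℂ} : ‖Hf p‖ ≤ 3 * Real.cosh p.re ^ (5 / 2 : ℝ) := by
  unfold Hf
  rw [norm_mul, norm_mul]
  have hc := norm_ccosh_le p
  have hs := norm_csinh_le p
  have h1 := Real.one_le_cosh p.re
  have h2 : ‖(Complex.cosh p) ^ (1 / 2 : ℂ)‖ ≤ Real.cosh p.re ^ (1 / 2 : ℝ) := by
    have := Complex.norm_cpow_real (Complex.cosh p) (1 / 2)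
    push_cast at this
    rw [this]
    gcongr
  have h3 : ‖2 * Complex.cosh p + 1‖ ≤ 3 * Real.cosh p.re := by
    calc ‖2 * Complex.cosh p + 1‖ ≤ ‖2 * Complex.cosh p‖ + ‖(1 : ℂ)‖ := norm_add_le _ _
      _ = 2 * ‖Complex.cosh p‖ + 1 := by simp
      _ ≤ 3 * Real.cosh p.re := by linarith
  calc ‖(Complex.cosh p) ^ (1 / 2 : ℂ)‖ * ‖2 * Complex.cosh p + 1‖ * ‖Complex.sinh p‖
      ≤ Real.cosh p.re ^ (1 / 2 : ℝ) * (3 * Real.cosh p.re) * Real.cosh p.re := by gcongr
    _ = 3 * (Real.cosh p.re ^ (1 / 2 : ℝ) * Real.cosh p.re ^ (2 : ℝ)) := by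
        rw [Real.rpow_two]; ring
    _ = 3 * Real.cosh p.re ^ (5 / 2 : ℝ) := by
        rw [← Real.rpow_add (Real.cosh_pos _)]; norm_num

theorem strip_of_third {p : ℂ} (hp : |p.im| ≤ Real.pi / 3) : p ∈ strip := by
  have := Real.pi_pos
  show |p.im| < Real.pi / 2
  linarith

theorem cosh3_ne {θ : ℝ} (hθ : 0 < θ) {p : ℂ} (h0 : 0 ≤ p.re) (hp : |p.im| ≤ Real.pi / 3)
    (hne : p ≠ θ) : Complex.cosh (3 * p) - Complex.cosh (3 * θ) ≠ 0 := by
  intro h
  have hpi := Real.pi_pos
  have h1 : Complex.cosh (3 * p) = ((Real.cosh (3 * θ) : ℝ) : ℂ) := by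
    rw [sub_eq_zero] at h; rw [h]; push_cast; rfl
  have hre := congrArg Complex.re h1
  have him := congrArg Complex.im h1
  rw [ccosh_re, Complex.ofReal_re] at hre
  rw [ccosh_im, Complex.ofReal_im] at him
  have e1 : (3 * p).re = 3 * p.re := by simp
  have e2 : (3 * p).im = 3 * p.im := by simp
  rw [e1, e2] at hre him
  have hc : 1 < Real.cosh (3 * θ) := Real.one_lt_cosh.mpr (by positivity)
  have habs := abs_le.mp hp
  rcases mul_eq_zero.mp him with hs | hs
  · have : p.re = 0 := by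
      have := Real.sinh_eq_zero.mp hs; linarith
    rw [this] at hre
    simp at hre
    have := Real.cos_le_one (3 * p.im)
    linarith
  · have hsin : 3 * p.im = 0 ∨ 3 * p.im = Real.pi ∨ 3 * p.im = -Real.pi := by
      rcases lt_trichotomy (3 * p.im) 0 with h' | h' | h'
      · right; right
        by_contra hcon
        have : -Real.pi < 3 * p.im := lt_of_le_of_ne (by linarith) (Ne.symm hcon)
        have := Real.sin_neg_of_neg_of_neg_pi_lt h' this
        linarith
      · left; exact h'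
      · right; left
        by_contra hcon
        have : 3 * p.im < Real.pi := lt_of_le_of_ne (by linarith) hcon
        have := Real.sin_pos_of_pos_of_lt_pi h' this
        linarith
    rcases hsin with h' | h' | h'
    · rw [h', Real.cos_zero, mul_one] at hre
      have h4 : 3 * p.re = 3 * θ :=
        Real.cosh_injOn (by simp [h0]) (by simp [hθ.le]) hre
      apply hne
      apply Complex.ext
      · simp; linarith
      · simp; linarith
    · rw [h', Real.cos_pi] at hre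
      have := Real.cosh_pos (3 * p.re)
      linarith
    · rw [h', Real.cos_neg, Real.cos_pi] at hre
      have := Real.cosh_pos (3 * p.re)
      linarith

/-- the value `√(cosh θ) / (2 cosh θ - 1)` -/
noncomputable def kap (θ : ℝ) : ℝ := √(Real.cosh θ) / (2 * Real.cosh θ - 1)

theorem Hf_ofReal (θ : ℝ) : Hf θ = ((kap θ * Real.sinh (3 * θ) : ℝ) : ℂ) := by
  have h1 := Real.one_le_cosh θ
  have h2 : (Complex.cosh (θ : ℂ)) ^ (1 / 2 : ℂ) = ((√(Real.cosh θ) : ℝ) : ℂ) := by
    rw [Real.sqrt_eq_rpow, Complex.ofReal_cpow (by linarith)]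
    push_cast
    rfl
  unfold Hf kap
  rw [h2, ← Complex.ofReal_cosh, ← Complex.ofReal_sinh]
  rw [Real.sinh_three_mul]
  have h3 : 4 * Real.sinh θ ^ 3 + 3 * Real.sinh θ =
      Real.sinh θ * ((2 * Real.cosh θ - 1) * (2 * Real.cosh θ + 1)) := by
    have := Real.cosh_sq θ
    linear_combination (-4 * Real.sinh θ) * this
  rw [h3]
  have h4 : (2 * Real.cosh θ - 1) ≠ 0 := by linarith
  have h5 : √(Real.cosh θ) / (2 * Real.cosh θ - 1) *
      (Real.sinh θ * ((2 * Real.cosh θ - 1) * (2 * Real.cosh θ + 1))) =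
      √(Real.cosh θ) * (2 * Real.cosh θ + 1) * Real.sinh θ := by
    field_simp
  rw [h5]
  push_cast
  ring

noncomputable def Nf (θ : ℝ) (p : ℂ) : ℂ := Hf p - kap θ * Complex.sinh (3 * p)

noncomputable def Gf (θ : ℝ) (p : ℂ) : ℂ := Complex.cosh (3 * p) - Complex.cosh (3 * θ)

noncomputable def qf (θ : ℝ) (p : ℂ) : ℂ := dslope (Nf θ) θ p / dslope (Gf θ) θ p

theorem Nf_self (θ : ℝ) : Nf θ θ = 0 := by
  unfold Nf; rw [Hf_ofReal]; push_cast; ring

theorem Gf_self (θ : ℝ) : Gf θ θ = 0 := by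
  unfold Gf; ring

theorem qf_of_ne {θ : ℝ} {p : ℂ} (hp : p ≠ θ) : qf θ p = Nf θ p / Gf θ p := by
  unfold qf
  rw [dslope_of_ne _ hp, dslope_of_ne _ hp, slope_def_field, slope_def_field, Nf_self, Gf_self,
    sub_zero, sub_zero]
  have : p - θ ≠ 0 := sub_ne_zero.mpr hp
  field_simp

theorem ofReal_mem_strip (θ : ℝ) : (θ : ℂ) ∈ strip := by
  show |(θ : ℂ).im| < Real.pi / 2
  simp [Real.pi_pos]

theorem dslope_Gf_ne {θ : ℝ} (hθ : 0 < θ) {p : ℂ} (h0 : 0 ≤ p.re) (hp : |p.im| ≤ Real.pi / 3) :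
    dslope (Gf θ) θ p ≠ 0 := by
  by_cases h : p = θ
  · rw [h, dslope_same]
    have hd : HasDerivAt (Gf θ) (Complex.sinh (3 * θ) * (3 * 1)) (θ : ℂ) := by
      unfold Gf
      have h1 : HasDerivAt (fun p : ℂ => 3 * p) (3 * 1) (θ : ℂ) := (hasDerivAt_id _).const_mul 3
      exact (h1.ccosh).sub_const _
    rw [hd.deriv]
    have h2 : Complex.sinh (3 * θ) = ((Real.sinh (3 * θ) : ℝ) : ℂ) := by push_cast; rfl
    rw [h2]
    have h3 : 0 < Real.sinh (3 * θ) := Real.sinh_pos_iff.mpr (by positivity)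
    have h4 : ((Real.sinh (3 * θ) : ℝ) : ℂ) ≠ 0 := by exact_mod_cast h3.ne'
    simpa using h4
  · rw [dslope_of_ne _ h, slope_def_field, Gf_self, sub_zero]
    exact div_ne_zero (cosh3_ne hθ h0 hp h) (sub_ne_zero.mpr h)

theorem qf_differentiableOn {θ : ℝ} (hθ : 0 < θ) {R : ℝ} (hR : 0 ≤ R) :
    DifferentiableOn ℂ (qf θ) (Set.uIcc 0 R ×ℂ Set.uIcc (-(Real.pi / 3)) (Real.pi / 3)) := by
  have hpi := Real.pi_pos
  have hsub : ∀ p ∈ (Set.uIcc 0 R ×ℂ Set.uIcc (-(Real.pi / 3)) (Real.pi / 3)),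
      0 ≤ p.re ∧ |p.im| ≤ Real.pi / 3 := by
    intro p hp
    rw [Complex.mem_reProdIm, Set.uIcc_of_le hR, Set.uIcc_of_le (by linarith)] at hp
    exact ⟨hp.1.1, abs_le.mpr ⟨hp.2.1, hp.2.2⟩⟩
  have hnhds : strip ∈ 𝓝 (θ : ℂ) := isOpen_strip.mem_nhds (ofReal_mem_strip θ)
  have hN : DifferentiableOn ℂ (Nf θ) strip := by
    unfold Nf
    exact Hf_differentiableOn.sub (by fun_prop)
  have hG : DifferentiableOn ℂ (Gf θ) strip := by
    unfold Gf
    fun_prop
  have hN' := (Complex.differentiableOn_dslope hnhds).mpr hN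
  have hG' := (Complex.differentiableOn_dslope hnhds).mpr hG
  have hs : (Set.uIcc 0 R ×ℂ Set.uIcc (-(Real.pi / 3)) (Real.pi / 3)) ⊆ strip :=
    fun p hp => strip_of_third (hsub p hp).2
  exact (hN'.mono hs).div (hG'.mono hs)
    (fun p hp => dslope_Gf_ne hθ (hsub p hp).1 (hsub p hp).2)

/-- the boundary density -/
noncomputable def ImH (u : ℝ) : ℝ := (Hf (u + (Real.pi / 3 : ℝ) * Complex.I)).im

theorem contour_finite {θ : ℝ} (hθ : 0 < θ) {R : ℝ} (hR : θ < R) :
    2 * ((∫ x in (0:ℝ)..R, ImH x / (Real.cosh (3 * x) + Real.cosh (3 * θ)) : ℝ) : ℂ) +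
      ∫ y in (-(Real.pi / 3))..(Real.pi / 3), qf θ (R + y * Complex.I) = 0 := by
  have hpi := Real.pi_pos
  have hR0 : 0 ≤ R := by linarith
  have key := Complex.integral_boundary_rect_eq_zero_of_differentiableOn (qf θ)
    (⟨0, -(Real.pi / 3)⟩ : ℂ) (⟨R, Real.pi / 3⟩ : ℂ) (qf_differentiableOn hθ hR0)
  simp only at key
  -- left side
  have hleft : ∫ y in (-(Real.pi / 3))..(Real.pi / 3), qf θ (((0:ℝ):ℂ) + y * Complex.I) = 0 := by
    have hodd : ∀ y : ℝ, qf θ (((0:ℝ):ℂ) + ((-y : ℝ) : ℂ) * Complex.I) =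
        -qf θ (((0:ℝ):ℂ) + y * Complex.I) := by
      intro y
      have hne : ∀ y : ℝ, (((0:ℝ):ℂ) + (y : ℂ) * Complex.I) ≠ θ := by
        intro y h
        have := congrArg Complex.re h
        simp at this
        linarith
      rw [qf_of_ne (hne _), qf_of_ne (hne _)]
      have e : (((0:ℝ):ℂ) + ((-y : ℝ) : ℂ) * Complex.I) = -(((0:ℝ):ℂ) + (y : ℂ) * Complex.I) := by
        push_cast; ring
      rw [e]
      unfold Nf Gf
      rw [Hf_neg, mul_neg, Complex.sinh_neg, Complex.cosh_neg, ← neg_div]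
      congr 1; ring
    have h1 : ∫ y in (-(Real.pi / 3))..(Real.pi / 3), qf θ (((0:ℝ):ℂ) + ((-y : ℝ) : ℂ) * Complex.I) =
        ∫ y in (-(Real.pi / 3))..(Real.pi / 3), qf θ (((0:ℝ):ℂ) + y * Complex.I) := by
      have := intervalIntegral.integral_comp_neg (a := -(Real.pi / 3)) (b := Real.pi / 3)
        (fun y : ℝ => qf θ (((0:ℝ):ℂ) + y * Complex.I))
      rw [neg_neg] at this
      exact this
    have h2 : ∫ y in (-(Real.pi / 3))..(Real.pi / 3), qf θ (((0:ℝ):ℂ) + ((-y : ℝ) : ℂ) * Complex.I) =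
        -∫ y in (-(Real.pi / 3))..(Real.pi / 3), qf θ (((0:ℝ):ℂ) + y * Complex.I) := by
      rw [← intervalIntegral.integral_neg]
      exact intervalIntegral.integral_congr fun y _ => hodd y
    rw [h1] at h2
    exact self_eq_neg.mp h2
  rw [hleft, smul_zero, sub_zero] at key
  -- horizontal sides
  have hne3 : ∀ (x : ℝ) (s : ℝ), s ≠ 0 → ((x : ℂ) + (s : ℂ) * Complex.I) ≠ θ := by
    intro x s hs h
    have := congrArg Complex.im h
    simp at this
    exact hs this
  have hth : ∀ x : ℝ, (3 * ((x : ℂ) + ((Real.pi / 3 : ℝ) : ℂ) * Complex.I)) =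
      (3 * x : ℂ) + Real.pi * Complex.I := by
    intro x; push_cast; ring
  have hsinh : ∀ x : ℝ, Complex.sinh (3 * ((x : ℂ) + ((Real.pi / 3 : ℝ) : ℂ) * Complex.I)) =
      -((Real.sinh (3 * x) : ℝ) : ℂ) := by
    intro x
    rw [hth, Complex.sinh_add, Complex.cosh_mul_I, Complex.sinh_mul_I, Complex.cos_pi,
      Complex.sin_pi]
    push_cast; ring
  have hcosh : ∀ x : ℝ, Complex.cosh (3 * ((x : ℂ) + ((Real.pi / 3 : ℝ) : ℂ) * Complex.I)) =
      -((Real.cosh (3 * x) : ℝ) : ℂ) := by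
    intro x
    rw [hth, Complex.cosh_add, Complex.cosh_mul_I, Complex.sinh_mul_I, Complex.cos_pi,
      Complex.sin_pi]
    push_cast; ring
  have htop : ∀ x : ℝ, qf θ ((x : ℂ) + ((Real.pi / 3 : ℝ) : ℂ) * Complex.I) =
      -((Hf (x + ((Real.pi / 3 : ℝ) : ℂ) * Complex.I) + kap θ * (Real.sinh (3 * x) : ℝ)) /
        ((Real.cosh (3 * x) + Real.cosh (3 * θ) : ℝ) : ℂ)) := by
    intro x
    rw [qf_of_ne (hne3 _ _ (by positivity))]
    unfold Nf Gf
    rw [hsinh, hcosh]
    have e : (-((Real.cosh (3 * x) : ℝ) : ℂ) - Complex.cosh (3 * θ)) =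
        -((Real.cosh (3 * x) + Real.cosh (3 * θ) : ℝ) : ℂ) := by push_cast; ring
    rw [e, div_neg]
    congr 2; ring
  have hbot : ∀ x : ℝ, qf θ ((x : ℂ) + ((-(Real.pi / 3) : ℝ) : ℂ) * Complex.I) =
      (starRingEnd ℂ) (qf θ ((x : ℂ) + ((Real.pi / 3 : ℝ) : ℂ) * Complex.I)) := by
    intro x
    have hmem : ((x : ℂ) + ((Real.pi / 3 : ℝ) : ℂ) * Complex.I) ∈ strip := by
      apply strip_of_third
      simp
      exact (abs_of_pos (by positivity)).le
    have e : ((x : ℂ) + ((-(Real.pi / 3) : ℝ) : ℂ) * Complex.I) =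
        (starRingEnd ℂ) ((x : ℂ) + ((Real.pi / 3 : ℝ) : ℂ) * Complex.I) := by
      rw [map_add, map_mul, Complex.conj_I, Complex.conj_ofReal, Complex.conj_ofReal]
      push_cast; ring
    rw [qf_of_ne (hne3 _ _ (by simp)), qf_of_ne (hne3 _ _ (by positivity)), e]
    unfold Nf Gf
    have h3 : (starRingEnd ℂ) (3 : ℂ) = 3 := map_ofNat _ 3
    rw [Hf_conj hmem]
    simp only [map_div₀, map_sub, map_mul, Complex.conj_ofReal, ← Complex.sinh_conj,
      ← Complex.cosh_conj, h3]
  have hdiff : ∀ x : ℝ, qf θ ((x : ℂ) + ((-(Real.pi / 3) : ℝ) : ℂ) * Complex.I) -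
      qf θ ((x : ℂ) + ((Real.pi / 3 : ℝ) : ℂ) * Complex.I) =
      2 * Complex.I * ((ImH x / (Real.cosh (3 * x) + Real.cosh (3 * θ)) : ℝ) : ℂ) := by
    intro x
    rw [hbot, htop]
    have hc : (0:ℝ) < Real.cosh (3 * x) + Real.cosh (3 * θ) := by
      have := Real.cosh_pos (3 * x); have := Real.cosh_pos (3 * θ); positivity
    have hc' : ((Real.cosh (3 * x) + Real.cosh (3 * θ) : ℝ) : ℂ) ≠ 0 := by exact_mod_cast hc.ne'
    rw [map_neg, map_div₀, Complex.conj_ofReal, map_add, map_mul, Complex.conj_ofReal,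
      Complex.conj_ofReal]
    unfold ImH
    set w := Hf (x + ((Real.pi / 3 : ℝ) : ℂ) * Complex.I)
    have hw : w - (starRingEnd ℂ) w = 2 * Complex.I * (w.im : ℂ) := by
      rw [Complex.sub_conj]; push_cast; ring
    rw [Complex.ofReal_div]
    field_simp
    linear_combination hw
  have hcont : ContinuousOn (qf θ)
      (Set.uIcc 0 R ×ℂ Set.uIcc (-(Real.pi / 3)) (Real.pi / 3)) :=
    (qf_differentiableOn hθ hR0).continuousOn
  have hint : ∀ s : ℝ, |s| ≤ Real.pi / 3 →
      IntervalIntegrable (fun x : ℝ => qf θ ((x : ℂ) + (s : ℂ) * Complex.I)) volume 0 R := by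
    intro s hs
    apply ContinuousOn.intervalIntegrable
    refine hcont.comp (by fun_prop) ?_
    intro x hx
    rw [Complex.mem_reProdIm]
    constructor
    · simpa using hx
    · rw [Set.uIcc_of_le (by linarith)]
      simpa using abs_le.mp hs
  have h3 : |Real.pi / 3| ≤ Real.pi / 3 := (abs_of_pos (by positivity)).le
  have h3' : |-(Real.pi / 3)| ≤ Real.pi / 3 := by rw [abs_neg]; exact h3
  have hsub : (∫ x in (0:ℝ)..R, qf θ ((x : ℂ) + ((-(Real.pi / 3) : ℝ) : ℂ) * Complex.I)) -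
      (∫ x in (0:ℝ)..R, qf θ ((x : ℂ) + ((Real.pi / 3 : ℝ) : ℂ) * Complex.I)) =
      2 * Complex.I *
        ((∫ x in (0:ℝ)..R, ImH x / (Real.cosh (3 * x) + Real.cosh (3 * θ)) : ℝ) : ℂ) := by
    rw [← intervalIntegral.integral_sub (hint _ h3') (hint _ h3)]
    rw [← intervalIntegral.integral_ofReal, ← intervalIntegral.integral_const_mul]
    exact intervalIntegral.integral_congr fun x _ => hdiff x
  rw [hsub, smul_eq_mul] at key
  have hI : Complex.I ≠ 0 := Complex.I_ne_zero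
  have : Complex.I * (2 * ((∫ x in (0:ℝ)..R, ImH x / (Real.cosh (3 * x) + Real.cosh (3 * θ)) : ℝ) : ℂ) +
      ∫ y in (-(Real.pi / 3))..(Real.pi / 3), qf θ (R + y * Complex.I)) = 0 := by
    linear_combination key
  exact (mul_eq_zero.mp this).resolve_left hI

noncomputable def Bd (θ R : ℝ) : ℝ :=
  (3 * Real.exp (-(R / 2)) + kap θ * (1 + Real.cosh (3 * θ)) * Real.exp (-(3 * R))) /
    ((1 - Real.exp (-(6 * R))) / 2 - Real.cosh (3 * θ) * Real.exp (-(3 * R)))

theorem kap_nonneg (θ : ℝ) : 0 ≤ kap θ := by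
  have := Real.one_le_cosh θ
  unfold kap
  apply div_nonneg (Real.sqrt_nonneg _)
  linarith

theorem tendsto_Bd (θ : ℝ) : Tendsto (Bd θ) atTop (𝓝 0) := by
  have he : ∀ c : ℝ, 0 < c → Tendsto (fun R : ℝ => Real.exp (-(c * R))) atTop (𝓝 0) := by
    intro c hc
    exact Real.tendsto_exp_neg_atTop_nhds_zero.comp (tendsto_id.const_mul_atTop hc)
  have h1 : Tendsto (fun R : ℝ => 3 * Real.exp (-(R / 2)) +
      kap θ * (1 + Real.cosh (3 * θ)) * Real.exp (-(3 * R))) atTop
      (𝓝 (3 * 0 + kap θ * (1 + Real.cosh (3 * θ)) * 0)) := by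
    refine Tendsto.add (Tendsto.const_mul _ ?_) (Tendsto.const_mul _ (he 3 (by norm_num)))
    have := he (1 / 2) (by norm_num)
    refine this.congr fun R => ?_
    congr 1; ring
  have h2 : Tendsto (fun R : ℝ => (1 - Real.exp (-(6 * R))) / 2 -
      Real.cosh (3 * θ) * Real.exp (-(3 * R))) atTop
      (𝓝 ((1 - 0) / 2 - Real.cosh (3 * θ) * 0)) := by
    refine Tendsto.sub (Tendsto.div_const (tendsto_const_nhds.sub (he 6 (by norm_num))) _)
      (Tendsto.const_mul _ (he 3 (by norm_num)))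
  have h3 := h1.div h2 (by norm_num)
  simp only [mul_zero, add_zero, zero_div] at h3
  exact h3

theorem right_bound {θ : ℝ} {R y : ℝ} (hR : θ < R) (hR0 : 0 ≤ R)
    (hpos : 0 < (1 - Real.exp (-(6 * R))) / 2 - Real.cosh (3 * θ) * Real.exp (-(3 * R))) :
    ‖qf θ (R + y * Complex.I) + kap θ‖ ≤ Bd θ R := by
  set p : ℂ := R + y * Complex.I with hp
  have hre : p.re = R := by simp [hp]
  have hne : p ≠ θ := by
    intro h
    have := congrArg Complex.re h
    rw [hre, Complex.ofReal_re] at this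
    linarith
  have hk := kap_nonneg θ
  have hexp : Real.exp (-(6 * R)) = Real.exp (-(3 * R)) * Real.exp (-(3 * R)) := by
    rw [← Real.exp_add]; congr 1; ring
  have hE := Real.exp_pos (3 * R)
  have hE1 : Real.exp (-(3 * R)) * Real.exp (3 * R) = 1 := by
    rw [← Real.exp_add]; simp
  have hsinh : Real.sinh (3 * R) = Real.exp (3 * R) * ((1 - Real.exp (-(6 * R))) / 2) := by
    rw [Real.sinh_eq, hexp]
    linear_combination (Real.exp (-(3 * R)) / 2) * hE1
  have hD : Real.exp (3 * R) * ((1 - Real.exp (-(6 * R))) / 2 - Real.cosh (3 * θ) *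
      Real.exp (-(3 * R))) = Real.sinh (3 * R) - Real.cosh (3 * θ) := by
    rw [hsinh]
    linear_combination (-Real.cosh (3 * θ)) * hE1
  have hG : Real.sinh (3 * R) - Real.cosh (3 * θ) ≤ ‖Gf θ p‖ := by
    unfold Gf
    have h1 : Real.sinh (3 * R) ≤ ‖Complex.cosh (3 * p)‖ := by
      have := le_norm_ccosh (p := 3 * p) (by simp [hre]; linarith)
      simpa [hre] using this
    have h2 : ‖Complex.cosh (3 * (θ : ℂ))‖ = Real.cosh (3 * θ) := by
      have : Complex.cosh (3 * (θ : ℂ)) = ((Real.cosh (3 * θ) : ℝ) : ℂ) := by push_cast; rfl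
      rw [this, Complex.norm_real, Real.norm_of_nonneg (Real.cosh_pos _).le]
    have h3 := norm_sub_norm_le (Complex.cosh (3 * p)) (Complex.cosh (3 * (θ : ℂ)))
    linarith
  have hGpos : 0 < Real.sinh (3 * R) - Real.cosh (3 * θ) := by
    rw [← hD]; positivity
  have hG0 : Gf θ p ≠ 0 := by
    intro h; rw [h, norm_zero] at hG; linarith
  rw [qf_of_ne hne]
  have e1 : Nf θ p / Gf θ p + kap θ = (Nf θ p + kap θ * Gf θ p) / Gf θ p := by
    field_simp
  rw [e1, norm_div]
  have e2 : Nf θ p + kap θ * Gf θ p =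
      Hf p + kap θ * (Complex.exp (-(3 * p)) - Complex.cosh (3 * θ)) := by
    unfold Nf Gf
    have := Complex.cosh_sub_sinh (3 * p)
    linear_combination (kap θ : ℂ) * this
  have hnum : ‖Nf θ p + kap θ * Gf θ p‖ ≤ Real.exp (3 * R) *
      (3 * Real.exp (-(R / 2)) + kap θ * (1 + Real.cosh (3 * θ)) * Real.exp (-(3 * R))) := by
    rw [e2]
    have h1 : ‖Hf p‖ ≤ 3 * Real.exp (3 * R) * Real.exp (-(R / 2)) := by
      refine norm_Hf_le.trans ?_
      rw [hre]
      have h2 : Real.cosh R ≤ Real.exp R := by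
        rw [Real.cosh_eq]
        have : Real.exp (-R) ≤ Real.exp R := Real.exp_le_exp.mpr (by linarith)
        linarith
      have h3 : Real.cosh R ^ (5 / 2 : ℝ) ≤ Real.exp (3 * R) * Real.exp (-(R / 2)) := by
        calc Real.cosh R ^ (5 / 2 : ℝ) ≤ Real.exp R ^ (5 / 2 : ℝ) := by
              have := Real.cosh_pos R
              gcongr
          _ = Real.exp (3 * R) * Real.exp (-(R / 2)) := by
              rw [← Real.exp_mul, ← Real.exp_add]; congr 1; ring
      linarith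
    have h2 : ‖(kap θ : ℂ) * (Complex.exp (-(3 * p)) - Complex.cosh (3 * θ))‖ ≤
        kap θ * (1 + Real.cosh (3 * θ)) := by
      rw [norm_mul, Complex.norm_real, Real.norm_of_nonneg hk]
      gcongr
      refine (norm_sub_le _ _).trans ?_
      have h3 : ‖Complex.exp (-(3 * p))‖ ≤ 1 := by
        rw [Complex.norm_exp]
        simp only [Complex.neg_re]
        have : (3 * p).re = 3 * R := by simp [hre]
        rw [this]
        apply Real.exp_le_one_iff.mpr; linarith
      have h4 : ‖Complex.cosh (3 * (θ : ℂ))‖ = Real.cosh (3 * θ) := by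
        have : Complex.cosh (3 * (θ : ℂ)) = ((Real.cosh (3 * θ) : ℝ) : ℂ) := by push_cast; rfl
        rw [this, Complex.norm_real, Real.norm_of_nonneg (Real.cosh_pos _).le]
      linarith
    calc _ ≤ _ := norm_add_le _ _
      _ ≤ 3 * Real.exp (3 * R) * Real.exp (-(R / 2)) + kap θ * (1 + Real.cosh (3 * θ)) :=
        add_le_add h1 h2
      _ = _ := by linear_combination (-(kap θ * (1 + Real.cosh (3 * θ)))) * hE1
  calc ‖Nf θ p + kap θ * Gf θ p‖ / ‖Gf θ p‖
      ≤ (Real.exp (3 * R) *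
      (3 * Real.exp (-(R / 2)) + kap θ * (1 + Real.cosh (3 * θ)) * Real.exp (-(3 * R)))) /
        (Real.sinh (3 * R) - Real.cosh (3 * θ)) := by
        have := Real.cosh_pos (3 * θ)
        gcongr
    _ = Bd θ R := by
        rw [← hD]
        unfold Bd
        have h5 := hpos.ne'
        have h6 := hE.ne'
        rw [mul_div_mul_left _ _ h6]

theorem tendsto_right {θ : ℝ} (hθ : 0 < θ) :
    Tendsto (fun R : ℝ => ∫ y in (-(Real.pi / 3))..(Real.pi / 3), qf θ (R + y * Complex.I)) atTop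
      (𝓝 (-(kap θ * (2 * Real.pi / 3) : ℝ))) := by
  have hpi := Real.pi_pos
  rw [tendsto_iff_norm_sub_tendsto_zero]
  have hev : ∀ᶠ R : ℝ in atTop, θ < R ∧
      0 < (1 - Real.exp (-(6 * R))) / 2 - Real.cosh (3 * θ) * Real.exp (-(3 * R)) := by
    have he : ∀ c : ℝ, 0 < c → Tendsto (fun R : ℝ => Real.exp (-(c * R))) atTop (𝓝 0) := by
      intro c hc
      exact Real.tendsto_exp_neg_atTop_nhds_zero.comp (tendsto_id.const_mul_atTop hc)
    have h2 : Tendsto (fun R : ℝ => (1 - Real.exp (-(6 * R))) / 2 -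
        Real.cosh (3 * θ) * Real.exp (-(3 * R))) atTop
        (𝓝 ((1 - 0) / 2 - Real.cosh (3 * θ) * 0)) := by
      refine Tendsto.sub (Tendsto.div_const (tendsto_const_nhds.sub (he 6 (by norm_num))) _)
        (Tendsto.const_mul _ (he 3 (by norm_num)))
    exact (eventually_gt_atTop θ).and (h2.eventually (lt_mem_nhds (by norm_num)))
  refine squeeze_zero' (Eventually.of_forall fun _ => norm_nonneg _) ?_
    (g := fun R => Bd θ R * |Real.pi / 3 - -(Real.pi / 3)|) ?_
  · filter_upwards [hev] with R hR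
    have hint : IntervalIntegrable (fun y : ℝ => qf θ (R + y * Complex.I)) volume
        (-(Real.pi / 3)) (Real.pi / 3) := by
      apply ContinuousOn.intervalIntegrable
      refine (qf_differentiableOn hθ (R := R) (by linarith)).continuousOn.comp (by fun_prop) ?_
      intro y hy
      rw [Complex.mem_reProdIm]
      constructor
      · simp
      · simpa using hy
    have e : (∫ y in (-(Real.pi / 3))..(Real.pi / 3), qf θ (R + y * Complex.I)) -
        ((-(kap θ * (2 * Real.pi / 3) : ℝ) : ℝ) : ℂ) =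
        ∫ y in (-(Real.pi / 3))..(Real.pi / 3), (qf θ (R + y * Complex.I) + kap θ) := by
      rw [intervalIntegral.integral_add hint (by simp), intervalIntegral.integral_const]
      rw [Complex.real_smul]
      push_cast; ring
    rw [← Complex.ofReal_neg, e]
    refine intervalIntegral.norm_integral_le_of_norm_le_const fun y _ => ?_
    exact right_bound hR.1 (by linarith [hR.1]) hR.2
  · have := (tendsto_Bd θ).mul_const |Real.pi / 3 - -(Real.pi / 3)|
    rwa [zero_mul] at this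

theorem ImH_nonneg {u : ℝ} (hu : 0 ≤ u) : 0 ≤ ImH u := by
  have hpi := Real.pi_pos
  unfold ImH Hf
  set p : ℂ := u + ((Real.pi / 3 : ℝ) : ℂ) * Complex.I with hp
  have hre : p.re = u := by simp [hp]
  have him : p.im = Real.pi / 3 := by simp [hp]
  have hmem : p ∈ strip := by
    apply strip_of_third
    rw [him]
    exact (abs_of_pos (by positivity)).le
  set w := (Complex.cosh p) ^ (1 / 2 : ℂ) with hw
  have hc0 : Complex.cosh p ≠ 0 := Complex.slitPlane_ne_zero (ccosh_mem_slit hmem)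
  have hw2 : w * w = Complex.cosh p := by
    rw [hw, ← Complex.cpow_add _ _ hc0]
    norm_num
  have hα : 0 < w.re := by
    rw [hw, Complex.cpow_def_of_ne_zero hc0, Complex.exp_re]
    apply mul_pos (Real.exp_pos _)
    have h1 : (Complex.log (Complex.cosh p) * (1 / 2 : ℂ)).im = (Complex.cosh p).arg / 2 := by
      have : (1 / 2 : ℂ) = ((1 / 2 : ℝ) : ℂ) := by push_cast; rfl
      rw [this, Complex.im_mul_ofReal, Complex.log_im]; ring
    rw [h1]
    have h2 := Complex.neg_pi_lt_arg (Complex.cosh p)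
    have h3 := Complex.arg_le_pi (Complex.cosh p)
    have h4 := Complex.slitPlane_arg_ne_pi (ccosh_mem_slit hmem)
    have h5 := lt_of_le_of_ne h3 h4
    apply Real.cos_pos_of_mem_Ioo
    constructor <;> linarith
  have hs0 : 0 ≤ Real.sinh u := Real.sinh_nonneg_iff.mpr hu
  have hc1 := Real.one_le_cosh u
  have hcs := Real.cosh_sq u
  have hre2 := congrArg Complex.re hw2
  have him2 := congrArg Complex.im hw2
  rw [Complex.mul_re, ccosh_re, hre, him, Real.cos_pi_div_three] at hre2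
  rw [Complex.mul_im, ccosh_im, hre, him, Real.sin_pi_div_three] at him2
  set α := w.re
  set β := w.im
  have h3 : (0:ℝ) < √3 := by positivity
  have h33 : √3 * √3 = 3 := Real.mul_self_sqrt (by norm_num)
  have hβ : 0 ≤ β := by
    have h1 : 0 ≤ α * β := by
      have : 0 ≤ Real.sinh u * (√3 / 2) := by positivity
      linarith
    by_contra hcon
    push Not at hcon
    have := mul_neg_of_pos_of_neg hα hcon
    linarith
  have hsc : Real.sinh u ≤ Real.cosh u := Real.sinh_lt_cosh u |>.le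
  have hαβ : √3 * β ≤ α := by
    by_contra hcon
    push Not at hcon
    have h1 : (√3 * α + β) * (α - √3 * β) < 0 :=
      mul_neg_of_pos_of_neg (by positivity) (by linarith)
    -- expand
    have h2 : (√3 * α + β) * (α - √3 * β) = √3 * (α * α - β * β) - 2 * (α * β) := by
      linear_combination (-(α * β)) * h33
    have h4 : 2 * (α * β) = Real.sinh u * (√3 / 2) := by linarith
    rw [h2, h4, hre2] at h1
    have h5 : √3 * Real.sinh u ≤ √3 * Real.cosh u := by gcongr
    linarith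
  rw [mul_assoc, Complex.mul_im]
  have hXre : ((2 * Complex.cosh p + 1) * Complex.sinh p).re =
      Real.sinh u * (1 - 2 * Real.cosh u) / 2 := by
    rw [Complex.mul_re, csinh_re, csinh_im, hre, him, Real.cos_pi_div_three, Real.sin_pi_div_three]
    have e1 : (2 * Complex.cosh p + 1).re = Real.cosh u + 1 := by
      have : (2 * Complex.cosh p).re = 2 * (Complex.cosh p).re := by simp
      rw [Complex.add_re, this, ccosh_re, hre, him, Real.cos_pi_div_three, Complex.one_re]; ring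
    have e2 : (2 * Complex.cosh p + 1).im = √3 * Real.sinh u := by
      have : (2 * Complex.cosh p).im = 2 * (Complex.cosh p).im := by simp
      rw [Complex.add_im, this, ccosh_im, hre, him, Real.sin_pi_div_three, Complex.one_im]; ring
    rw [e1, e2]
    linear_combination (-(Real.sinh u * Real.cosh u) / 2) * h33
  have hYim : ((2 * Complex.cosh p + 1) * Complex.sinh p).im =
      √3 / 2 * (Real.cosh u * (Real.cosh u + 1) + Real.sinh u ^ 2) := by
    rw [Complex.mul_im, csinh_re, csinh_im, hre, him, Real.cos_pi_div_three, Real.sin_pi_div_three]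
    have e1 : (2 * Complex.cosh p + 1).re = Real.cosh u + 1 := by
      have : (2 * Complex.cosh p).re = 2 * (Complex.cosh p).re := by simp
      rw [Complex.add_re, this, ccosh_re, hre, him, Real.cos_pi_div_three, Complex.one_re]; ring
    have e2 : (2 * Complex.cosh p + 1).im = √3 * Real.sinh u := by
      have : (2 * Complex.cosh p).im = 2 * (Complex.cosh p).im := by simp
      rw [Complex.add_im, this, ccosh_im, hre, him, Real.sin_pi_div_three, Complex.one_im]; ring
    rw [e1, e2]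
    ring
  rw [hXre, hYim]
  set c := Real.cosh u
  set s := Real.sinh u
  -- α Y + β X ≥ 0
  have hX : s * (2 * c - 1) ≤ 2 * c * c := by
    have : s * (2 * c - 1) ≤ c * (2 * c - 1) := by
      apply mul_le_mul_of_nonneg_right hsc; linarith
    nlinarith
  have h6 : β * (s * (2 * c - 1)) * √3 ≤ α * (2 * c * c) := by
    calc β * (s * (2 * c - 1)) * √3 = (√3 * β) * (s * (2 * c - 1)) := by ring
      _ ≤ α * (2 * c * c) := by
        have : 0 ≤ s * (2 * c - 1) := mul_nonneg hs0 (by linarith)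
        gcongr
  have h7 : α * (√3 / 2 * (c * (c + 1) + s ^ 2)) + β * (s * (1 - 2 * c) / 2) =
      (1 / (2 * √3)) * (α * (3 * (c * (c + 1) + s ^ 2)) - β * (s * (2 * c - 1)) * √3) := by
    field_simp
    linear_combination (α * (c * (c + 1) + s ^ 2)) * h33
  change 0 ≤ α * (√3 / 2 * (c * (c + 1) + s ^ 2)) + β * (s * (1 - 2 * c) / 2)
  rw [h7]
  apply mul_nonneg (by positivity)
  have h8 : α * (2 * c * c) ≤ α * (3 * (c * (c + 1) + s ^ 2)) := by
    apply mul_le_mul_of_nonneg_left _ hα.le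
    nlinarith [sq_nonneg s, sq_nonneg c]
  linarith

/-- the density -/
noncomputable def rho (u : ℝ) : ℝ := 3 / Real.pi * ImH u

theorem rho_nonneg {u : ℝ} (hu : 0 ≤ u) : 0 ≤ rho u :=
  mul_nonneg (by positivity) (ImH_nonneg hu)

theorem continuous_ImH : Continuous ImH := by
  unfold ImH
  refine Complex.continuous_im.comp ?_
  rw [← continuousOn_univ]
  refine Hf_differentiableOn.continuousOn.comp (by fun_prop) ?_
  intro u _
  apply strip_of_third
  have := Real.pi_pos
  simp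
  exact (abs_of_pos (by positivity)).le

theorem continuous_rho : Continuous rho := continuous_const.mul continuous_ImH

theorem contour {θ : ℝ} (hθ : 0 < θ) :
    IntegrableOn (fun u => rho u / (Real.cosh (3 * u) + Real.cosh (3 * θ))) (Set.Ioi 0) ∧
      ∫ u in Set.Ioi 0, rho u / (Real.cosh (3 * u) + Real.cosh (3 * θ)) = kap θ := by
  have hpi := Real.pi_pos
  have hlim : Tendsto (fun R : ℝ => ∫ u in (0:ℝ)..R,
      rho u / (Real.cosh (3 * u) + Real.cosh (3 * θ))) atTop (𝓝 (kap θ)) := by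
    have h1 := (tendsto_right hθ).const_mul (-(3 / (2 * (Real.pi : ℂ))))
    have h2 : Tendsto (fun R : ℝ => ((∫ u in (0:ℝ)..R,
        rho u / (Real.cosh (3 * u) + Real.cosh (3 * θ)) : ℝ) : ℂ)) atTop (𝓝 ((kap θ : ℝ) : ℂ)) := by
      have e : -(3 / (2 * (Real.pi : ℂ))) * (-(kap θ * (2 * Real.pi / 3) : ℝ)) =
          ((kap θ : ℝ) : ℂ) := by
        have : (Real.pi : ℂ) ≠ 0 := by exact_mod_cast hpi.ne'
        push_cast
        field_simp
      rw [e] at h1
      refine h1.congr' ?_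
      filter_upwards [eventually_gt_atTop θ] with R hR
      have h3 := contour_finite hθ hR
      have h4 : (∫ u in (0:ℝ)..R, rho u / (Real.cosh (3 * u) + Real.cosh (3 * θ))) =
          3 / Real.pi * ∫ u in (0:ℝ)..R, ImH u / (Real.cosh (3 * u) + Real.cosh (3 * θ)) := by
        rw [← intervalIntegral.integral_const_mul]
        refine intervalIntegral.integral_congr fun u _ => ?_
        simp only [rho]; ring
      rw [h4]
      push_cast
      have : (Real.pi : ℂ) ≠ 0 := by exact_mod_cast hpi.ne'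
      have h5 : ∫ y in (-(Real.pi / 3))..(Real.pi / 3), qf θ (R + y * Complex.I) =
        -(2 * ((∫ x in (0:ℝ)..R, ImH x / (Real.cosh (3 * x) + Real.cosh (3 * θ)) : ℝ) : ℂ)) := by
        linear_combination h3
      rw [h5]
      field_simp
    exact (Complex.continuous_re.tendsto _).comp h2
  have hcont : Continuous (fun u => rho u / (Real.cosh (3 * u) + Real.cosh (3 * θ))) := by
    refine continuous_rho.div (by fun_prop) fun u => ?_
    have := Real.cosh_pos (3 * u)
    have := Real.cosh_pos (3 * θ)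
    positivity
  have hnn : ∀ u ∈ Set.Ioi (0:ℝ), 0 ≤ rho u / (Real.cosh (3 * u) + Real.cosh (3 * θ)) := by
    intro u hu
    have := Real.cosh_pos (3 * u)
    have := Real.cosh_pos (3 * θ)
    exact div_nonneg (rho_nonneg (le_of_lt hu)) (by positivity)
  have hI : IntegrableOn (fun u => rho u / (Real.cosh (3 * u) + Real.cosh (3 * θ)))
      (Set.Ioi 0) := by
    refine integrableOn_Ioi_of_intervalIntegral_norm_tendsto (kap θ) 0 (b := fun R : ℝ => R)
      (l := atTop) (fun i => hcont.integrableOn_Ioc) tendsto_id ?_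
    refine hlim.congr' ?_
    filter_upwards [eventually_ge_atTop 0] with R hR
    refine intervalIntegral.integral_congr_ae (Eventually.of_forall fun u hu => ?_)
    rw [Set.uIoc_of_le hR] at hu
    rw [Real.norm_of_nonneg (hnn u hu.1)]
  refine ⟨hI, ?_⟩
  exact tendsto_nhds_unique (intervalIntegral_tendsto_integral_Ioi 0 hI tendsto_id) hlim

end Contour



section Scalar

noncomputable def tpar (x : ℝ) : ℝ := Real.arsinh (x / √2) / 3

noncomputable def apar (x : ℝ) : ℝ := √2 * Real.sinh (tpar x)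

/-- the value of the polar norm at `(x, 1)` -/
noncomputable def Ff (x : ℝ) : ℝ := (1 + apar x ^ 2) * √(1 + apar x ^ 2)

noncomputable def Wf (x : ℝ) : ℝ := √(1 + apar x ^ 2) / (1 + 2 * apar x ^ 2)

theorem sqrt_two_sq : √(2:ℝ) ^ 2 = 2 := Real.sq_sqrt (by norm_num)

theorem sinh_three_tpar (x : ℝ) : √2 * Real.sinh (3 * tpar x) = x := by
  unfold tpar
  have h2 : (0:ℝ) < √2 := by positivity
  rw [mul_div_cancel₀ _ (by norm_num : (3:ℝ) ≠ 0), Real.sinh_arsinh]
  field_simp

theorem apar_eq (x : ℝ) : apar x * (3 + 2 * apar x ^ 2) = x := by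
  have h := sinh_three_tpar x
  rw [Real.sinh_three_mul] at h
  unfold apar
  have h2 := sqrt_two_sq
  calc √2 * Real.sinh (tpar x) * (3 + 2 * (√2 * Real.sinh (tpar x)) ^ 2)
      = √2 * Real.sinh (tpar x) * (3 + 2 * (√2 ^ 2 * Real.sinh (tpar x) ^ 2)) := by ring
    _ = √2 * (4 * Real.sinh (tpar x) ^ 3 + 3 * Real.sinh (tpar x)) := by rw [h2]; ring
    _ = x := h

theorem cosh_two_tpar (x : ℝ) : Real.cosh (2 * tpar x) = 1 + apar x ^ 2 := by
  rw [Real.cosh_two_mul, Real.cosh_sq]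
  unfold apar
  rw [mul_pow, sqrt_two_sq]; ring

theorem cosh_six_tpar (x : ℝ) : Real.cosh (3 * (2 * tpar x)) = 1 + x ^ 2 := by
  have h := sinh_three_tpar x
  rw [show 3 * (2 * tpar x) = 2 * (3 * tpar x) by ring, Real.cosh_two_mul, Real.cosh_sq]
  have : x ^ 2 = 2 * Real.sinh (3 * tpar x) ^ 2 := by
    rw [← sqrt_two_sq, ← mul_pow, h]
  rw [this]; ring

theorem tpar_pos {x : ℝ} (hx : 0 < x) : 0 < tpar x := by
  unfold tpar
  have : 0 < Real.arsinh (x / √2) := Real.arsinh_pos_iff.mpr (by positivity)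
  positivity

theorem apar_pos {x : ℝ} (hx : 0 < x) : 0 < apar x := by
  unfold apar
  have := Real.sinh_pos_iff.mpr (tpar_pos hx)
  positivity

theorem apar_zero : apar 0 = 0 := by
  unfold apar tpar; simp

theorem apar_neg (x : ℝ) : apar (-x) = -apar x := by
  unfold apar tpar
  rw [neg_div, Real.arsinh_neg, neg_div, Real.sinh_neg]; ring

theorem Ff_neg (x : ℝ) : Ff (-x) = Ff x := by
  unfold Ff; rw [apar_neg, neg_sq]

theorem Wf_eq_kap (x : ℝ) : Wf x = kap (2 * tpar x) := by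
  unfold Wf kap
  rw [cosh_two_tpar]
  congr 1; ring

theorem apar_deriv (x : ℝ) : HasDerivAt apar (1 / (3 * (1 + 2 * apar x ^ 2))) x := by
  have h2 : (0:ℝ) < √2 := by positivity
  have h1 : HasDerivAt tpar ((√(1 + (x / √2) ^ 2))⁻¹ * (1 / √2) / 3) x := by
    unfold tpar
    exact (((hasDerivAt_id x).div_const (√2)).arsinh.div_const 3)
  have h3 : HasDerivAt apar
      (√2 * (Real.cosh (tpar x) * ((√(1 + (x / √2) ^ 2))⁻¹ * (1 / √2) / 3))) x := by
    unfold apar
    exact (h1.sinh).const_mul _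
  have e1 : √(1 + (x / √2) ^ 2) = Real.cosh (3 * tpar x) := by
    rw [← Real.cosh_arsinh]
    unfold tpar
    congr 1; ring
  have e2 : Real.cosh (3 * tpar x) = Real.cosh (tpar x) * (1 + 2 * apar x ^ 2) := by
    rw [Real.cosh_three_mul]
    unfold apar
    rw [mul_pow, sqrt_two_sq]
    have := Real.cosh_sq (tpar x)
    linear_combination (4 * Real.cosh (tpar x)) * this
  have hc := Real.cosh_pos (tpar x)
  have e3 : √2 * (Real.cosh (tpar x) * ((√(1 + (x / √2) ^ 2))⁻¹ * (1 / √2) / 3)) =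
      1 / (3 * (1 + 2 * apar x ^ 2)) := by
    rw [e1, e2]
    have : 0 < 1 + 2 * apar x ^ 2 := by positivity
    field_simp
  rwa [e3] at h3

theorem Ff_deriv (x : ℝ) :
    HasDerivAt Ff (apar x * √(1 + apar x ^ 2) / (1 + 2 * apar x ^ 2)) x := by
  set a := apar x with ha
  have hb : 0 < 1 + a ^ 2 := by positivity
  have hs : 0 < √(1 + a ^ 2) := Real.sqrt_pos.mpr hb
  have hss : √(1 + a ^ 2) ^ 2 = 1 + a ^ 2 := Real.sq_sqrt hb.le
  have h1 : HasDerivAt (fun a : ℝ => 1 + a ^ 2) (2 * a) a := by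
    have := (hasDerivAt_pow 2 a).const_add 1
    simpa using this
  have h2 : HasDerivAt (fun a : ℝ => (1 + a ^ 2) * √(1 + a ^ 2))
      (2 * a * √(1 + a ^ 2) + (1 + a ^ 2) * (2 * a / (2 * √(1 + a ^ 2)))) a :=
    h1.mul (h1.sqrt hb.ne')
  have h3 : HasDerivAt Ff ((2 * a * √(1 + a ^ 2) + (1 + a ^ 2) * (2 * a / (2 * √(1 + a ^ 2)))) *
      (1 / (3 * (1 + 2 * a ^ 2)))) x := by
    show HasDerivAt ((fun a : ℝ => (1 + a ^ 2) * √(1 + a ^ 2)) ∘ apar) _ x
    exact h2.comp x (apar_deriv x)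
  have e : (2 * a * √(1 + a ^ 2) + (1 + a ^ 2) * (2 * a / (2 * √(1 + a ^ 2)))) *
      (1 / (3 * (1 + 2 * a ^ 2))) = a * √(1 + a ^ 2) / (1 + 2 * a ^ 2) := by
    set S := √(1 + a ^ 2)
    have e1 : (1 + a ^ 2) * (2 * a / (2 * S)) = a * S := by
      rw [← hss]; field_simp
    rw [e1]
    field_simp
    ring
  rwa [e] at h3

theorem Ff_sub (x : ℝ) :
    Ff x - x * (apar x * √(1 + apar x ^ 2) / (1 + 2 * apar x ^ 2)) = Wf x := by
  unfold Ff Wf
  have h := apar_eq x
  set a := apar x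
  rw [← h]
  field_simp
  ring

theorem Ff_div_deriv {x : ℝ} (hx : 0 < x) :
    HasDerivAt (fun x => Ff x / x) (-(Wf x / x ^ 2)) x := by
  have h := (Ff_deriv x).div (hasDerivAt_id x) hx.ne'
  have e : (apar x * √(1 + apar x ^ 2) / (1 + 2 * apar x ^ 2) * id x - Ff x * 1) / (id x) ^ 2 =
      -(Wf x / x ^ 2) := by
    rw [← Ff_sub]
    simp only [id]
    field_simp
    ring
  rw [e] at h
  exact h

theorem tendsto_apar : Tendsto apar atTop atTop := by
  have h2 : (0:ℝ) < √2 := by positivity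
  have h1 : Tendsto Real.arsinh atTop atTop := Real.sinhOrderIso.symm.tendsto_atTop
  have h3 : Tendsto Real.sinh atTop atTop := Real.sinhOrderIso.tendsto_atTop
  have h4 : Tendsto tpar atTop atTop := by
    unfold tpar
    exact (h1.comp (tendsto_id.atTop_div_const h2)).atTop_div_const (by norm_num)
  unfold apar
  exact (h3.comp h4).const_mul_atTop h2

theorem tendsto_Ff_div : Tendsto (fun x => Ff x / x) atTop (𝓝 (1 / 2)) := by
  have h0 : Tendsto (fun a : ℝ => 1 / a ^ 2) atTop (𝓝 0) := by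
    simp only [one_div]
    exact tendsto_inv_atTop_zero.comp (tendsto_pow_atTop (by norm_num))
  have h1 : Tendsto (fun a : ℝ => √(1 + 1 / a ^ 2) * ((1 + 1 / a ^ 2) / (2 + 3 * (1 / a ^ 2))))
      atTop (𝓝 (√(1 + 0) * ((1 + 0) / (2 + 3 * 0)))) :=
    ((h0.const_add 1).sqrt).mul ((h0.const_add 1).div ((h0.const_mul 3).const_add 2) (by norm_num))
  have e : √(1 + 0) * ((1 + 0) / (2 + 3 * 0)) = (1 / 2 : ℝ) := by simp
  rw [e] at h1
  refine (h1.comp tendsto_apar).congr' ?_
  filter_upwards [eventually_gt_atTop 0] with x hx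
  have ha := apar_pos hx
  simp only [Function.comp_apply]
  have h := apar_eq x
  unfold Ff
  set a := apar x
  rw [← h]
  have e1 : 1 + 1 / a ^ 2 = (1 + a ^ 2) / a ^ 2 := by field_simp; ring
  rw [e1, Real.sqrt_div (by positivity), Real.sqrt_sq ha.le]
  field_simp
  ring

theorem Ff_zero : Ff 0 = 1 := by
  unfold Ff; rw [apar_zero]; simp

end Scalar

section Rep2

variable {ρ : ℝ → ℝ}

/-- `D u = cosh 3u + 1` -/
noncomputable def Du (u : ℝ) : ℝ := Real.cosh (3 * u) + 1

theorem one_le_Du (u : ℝ) : 1 ≤ Du u := by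
  unfold Du
  have := Real.cosh_pos (3 * u)
  linarith

theorem continuous_Du : Continuous Du := by unfold Du; fun_prop

theorem W_rep (hc : ∀ θ : ℝ, 0 < θ →
    IntegrableOn (fun u => ρ u / (Real.cosh (3 * u) + Real.cosh (3 * θ))) (Set.Ioi 0) ∧
      ∫ u in Set.Ioi 0, ρ u / (Real.cosh (3 * u) + Real.cosh (3 * θ)) = kap θ)
    {x : ℝ} (hx : 0 < x) :
    IntegrableOn (fun u => ρ u / (Du u + x ^ 2)) (Set.Ioi 0) ∧
      ∫ u in Set.Ioi 0, ρ u / (Du u + x ^ 2) = Wf x := by
  have h := hc (2 * tpar x) (by have := tpar_pos hx; positivity)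
  rw [cosh_six_tpar, ← Wf_eq_kap] at h
  have e : (fun u => ρ u / (Du u + x ^ 2)) =
      fun u => ρ u / (Real.cosh (3 * u) + (1 + x ^ 2)) := by
    ext u; unfold Du; rw [add_assoc]
  rw [e]; exact h

theorem int_rho_D (hρ : Continuous ρ) (hc : ∀ θ : ℝ, 0 < θ →
    IntegrableOn (fun u => ρ u / (Real.cosh (3 * u) + Real.cosh (3 * θ))) (Set.Ioi 0) ∧
      ∫ u in Set.Ioi 0, ρ u / (Real.cosh (3 * u) + Real.cosh (3 * θ)) = kap θ) :
    IntegrableOn (fun u => ρ u / Du u) (Set.Ioi 0) := by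
  have h := (W_rep hc one_pos).1.const_mul 2
  refine Integrable.mono h (by
    exact (hρ.div continuous_Du (fun u => by have := one_le_Du u; positivity)).aestronglyMeasurable)
    (Eventually.of_forall fun u => ?_)
  have h1 := one_le_Du u
  rw [norm_mul, norm_div, norm_div, Real.norm_of_nonneg (show (0:ℝ) ≤ 2 by norm_num),
    Real.norm_of_nonneg (show (0:ℝ) ≤ Du u by linarith),
    Real.norm_of_nonneg (show (0:ℝ) ≤ Du u + 1 ^ 2 by linarith), ← mul_div_assoc,
    div_le_div_iff₀ (by linarith) (by linarith)]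
  have := norm_nonneg (ρ u)
  nlinarith

/-- `Ψ(x) = Φ(x)/x` -/
noncomputable def psi (ρ : ℝ → ℝ) (x : ℝ) : ℝ :=
  ∫ u in Set.Ioi 0, ρ u / Du u * (1 / x + Real.arctan (x / √(Du u)) / √(Du u))

theorem int_psi (hI : IntegrableOn (fun u => ρ u / Du u) (Set.Ioi 0)) (x : ℝ) :
    IntegrableOn (fun u => ρ u / Du u * (1 / x + Real.arctan (x / √(Du u)) / √(Du u)))
      (Set.Ioi 0) := by
  refine Integrable.mul_bdd (c := |1 / x| + Real.pi) hI ?_ (Eventually.of_forall fun u => ?_)
  · apply Measurable.aestronglyMeasurable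
    have : Measurable Du := continuous_Du.measurable
    fun_prop
  · have h1 := one_le_Du u
    have h2 : 1 ≤ √(Du u) := Real.one_le_sqrt.mpr h1
    rw [Real.norm_eq_abs]
    refine (abs_add_le _ _).trans ?_
    gcongr
    rw [abs_div, abs_of_nonneg (Real.sqrt_nonneg _)]
    have h3 : |Real.arctan (x / √(Du u))| ≤ Real.pi := by
      have h4 := Real.neg_pi_div_two_lt_arctan (x / √(Du u))
      have h5 := Real.arctan_lt_pi_div_two (x / √(Du u))
      have := Real.pi_pos
      rw [abs_le]; constructor <;> linarith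
    rw [div_le_iff₀ (by linarith)]
    have := Real.pi_pos
    nlinarith

theorem psi_deriv (hρ : Continuous ρ) (hc : ∀ θ : ℝ, 0 < θ →
    IntegrableOn (fun u => ρ u / (Real.cosh (3 * u) + Real.cosh (3 * θ))) (Set.Ioi 0) ∧
      ∫ u in Set.Ioi 0, ρ u / (Real.cosh (3 * u) + Real.cosh (3 * θ)) = kap θ)
    {x : ℝ} (hx : 0 < x) : HasDerivAt (psi ρ) (-(Wf x / x ^ 2)) x := by
  have hI := int_rho_D hρ hc
  have key := hasDerivAt_integral_of_dominated_loc_of_deriv_le (μ := volume.restrict (Set.Ioi 0))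
    (F := fun x u => ρ u / Du u * (1 / x + Real.arctan (x / √(Du u)) / √(Du u)))
    (F' := fun x u => -(ρ u / (Du u + x ^ 2) / x ^ 2))
    (x₀ := x) (s := Set.Ioi (x / 2)) (bound := fun u => ‖ρ u / Du u‖ * (1 / (x / 2) ^ 2))
    (Ioi_mem_nhds (by linarith)) ?_ (int_psi hI x) ?_ ?_ (hI.norm.mul_const _) ?_
  · have h2 := key.2
    have e : ∫ u in Set.Ioi 0, -(ρ u / (Du u + x ^ 2) / x ^ 2) = -(Wf x / x ^ 2) := by
      rw [integral_neg, integral_div, (W_rep hc hx).2]
    rw [e] at h2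
    exact h2
  · exact Eventually.of_forall fun y => (int_psi hI y).aestronglyMeasurable
  · apply Continuous.aestronglyMeasurable
    have h1 : ∀ u, Du u + x ^ 2 ≠ 0 := fun u => by have := one_le_Du u; positivity
    exact ((hρ.div (continuous_Du.add continuous_const) h1).div_const _).neg
  · refine Eventually.of_forall fun u y hy => ?_
    have hy' : x / 2 < y := hy
    have hy0 : 0 < y := by linarith
    have h1 := one_le_Du u
    rw [norm_neg, norm_div, norm_div, norm_div, Real.norm_of_nonneg (show (0:ℝ) ≤ y ^ 2 by positivity),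
      Real.norm_of_nonneg (show (0:ℝ) ≤ Du u by linarith),
      Real.norm_of_nonneg (show (0:ℝ) ≤ Du u + y ^ 2 by positivity), div_eq_mul_one_div]
    have h3 : ‖ρ u‖ / (Du u + y ^ 2) ≤ ‖ρ u‖ / Du u := by
      apply div_le_div_of_nonneg_left (norm_nonneg _) (by linarith)
      nlinarith [sq_nonneg y]
    have h4 : 1 / y ^ 2 ≤ 1 / (x / 2) ^ 2 := by
      apply one_div_le_one_div_of_le (by positivity)
      gcongr
    exact mul_le_mul h3 h4 (by positivity) (by positivity)
  · refine Eventually.of_forall fun u y hy => ?_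
    have hy' : x / 2 < y := hy
    have hy0 : 0 < y := by linarith
    have h1 := one_le_Du u
    have hD0 : 0 < Du u := by linarith
    have hs : 0 < √(Du u) := Real.sqrt_pos.mpr hD0
    have hss : √(Du u) ^ 2 = Du u := Real.sq_sqrt hD0.le
    have h2 : HasDerivAt (fun y : ℝ => 1 / y) (-(1 / y ^ 2)) y := by
      have := hasDerivAt_inv hy0.ne'
      simp only [one_div]
      exact this
    have h3 : HasDerivAt (fun y : ℝ => Real.arctan (y / √(Du u)) / √(Du u))
        (1 / (1 + (y / √(Du u)) ^ 2) * (1 / √(Du u)) / √(Du u)) y :=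
      (((hasDerivAt_id y).div_const (√(Du u))).arctan).div_const _
    have h4 := (h2.add h3).const_mul (ρ u / Du u)
    have e : ρ u / Du u * (-(1 / y ^ 2) + 1 / (1 + (y / √(Du u)) ^ 2) * (1 / √(Du u)) / √(Du u)) =
        -(ρ u / (Du u + y ^ 2) / y ^ 2) := by
      have e1 : (y / √(Du u)) ^ 2 = y ^ 2 / Du u := by rw [div_pow, hss]
      have e2 : 1 / (1 + (y / √(Du u)) ^ 2) * (1 / √(Du u)) / √(Du u) =
          1 / (1 + y ^ 2 / Du u) / √(Du u) ^ 2 := by
        rw [e1]; field_simp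
      rw [e2, hss]
      field_simp
      ring
    rw [e] at h4
    exact h4

theorem psi_const (hρ : Continuous ρ) (hc : ∀ θ : ℝ, 0 < θ →
    IntegrableOn (fun u => ρ u / (Real.cosh (3 * u) + Real.cosh (3 * θ))) (Set.Ioi 0) ∧
      ∫ u in Set.Ioi 0, ρ u / (Real.cosh (3 * u) + Real.cosh (3 * θ)) = kap θ) :
    ∃ c : ℝ, ∀ x : ℝ, 0 < x → psi ρ x - Ff x / x = c := by
  refine ⟨psi ρ 1 - Ff 1 / 1, fun x hx => ?_⟩
  have hd : ∀ x : ℝ, 0 < x → HasDerivAt (fun x => psi ρ x - Ff x / x) 0 x := by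
    intro x hx
    have h := (psi_deriv hρ hc hx).sub (Ff_div_deriv hx)
    rw [sub_self] at h
    exact h
  exact isOpen_Ioi.is_const_of_deriv_eq_zero (isPreconnected_Ioi)
    (fun x hx => (hd x hx).differentiableAt.differentiableWithinAt)
    (fun x hx => (hd x hx).deriv) (Set.mem_Ioi.mpr hx) (Set.mem_Ioi.mpr one_pos)

theorem int_arctan (hI : IntegrableOn (fun u => ρ u / Du u) (Set.Ioi 0)) (x : ℝ) :
    IntegrableOn (fun u => ρ u / Du u * (Real.arctan (x / √(Du u)) / √(Du u)))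
      (Set.Ioi 0) := by
  have h := (int_psi hI x).sub (hI.mul_const (1 / x))
  refine h.congr (Eventually.of_forall fun u => ?_)
  simp only [Pi.sub_apply]
  ring

theorem abs_arctan_le {x D : ℝ} (hx : 0 ≤ x) (hD : 1 ≤ D) :
    |Real.arctan (x / √D) / √D| ≤ x := by
  have h1 : 1 ≤ √D := Real.one_le_sqrt.mpr hD
  have h2 : 0 ≤ x / √D := by positivity
  have h3 : 0 ≤ Real.arctan (x / √D) := Real.arctan_nonneg.mpr h2
  have h4 : Real.arctan (x / √D) ≤ x / √D := by
    have h := Real.le_tan h3 (Real.arctan_lt_pi_div_two _)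
    rwa [Real.tan_arctan] at h
  rw [abs_of_nonneg (by positivity), div_le_iff₀ (by linarith)]
  have h5 : x / √D ≤ x := div_le_self hx h1
  nlinarith

theorem psi_bound (hI : IntegrableOn (fun u => ρ u / Du u) (Set.Ioi 0)) {x : ℝ} (hx : 0 < x) :
    |x * psi ρ x - ∫ u in Set.Ioi 0, ρ u / Du u| ≤
      (∫ u in Set.Ioi 0, ‖ρ u / Du u‖) * x ^ 2 := by
  have e : x * psi ρ x - ∫ u in Set.Ioi 0, ρ u / Du u =
      x * ∫ u in Set.Ioi 0, ρ u / Du u * (Real.arctan (x / √(Du u)) / √(Du u)) := by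
    unfold psi
    rw [← integral_const_mul, ← integral_const_mul, ← integral_sub ((int_psi hI x).const_mul x) hI]
    refine integral_congr_ae (Eventually.of_forall fun u => ?_)
    dsimp only
    field_simp
    ring
  rw [e, abs_mul, abs_of_pos hx]
  have h1 : |∫ u in Set.Ioi 0, ρ u / Du u * (Real.arctan (x / √(Du u)) / √(Du u))| ≤
      (∫ u in Set.Ioi 0, ‖ρ u / Du u‖) * x := by
    rw [← integral_mul_const, ← Real.norm_eq_abs]
    refine norm_integral_le_of_norm_le (hI.norm.mul_const x) (Eventually.of_forall fun u => ?_)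
    rw [norm_mul]
    gcongr
    exact abs_arctan_le hx.le (one_le_Du u)
  calc x * |∫ u in Set.Ioi 0, ρ u / Du u * (Real.arctan (x / √(Du u)) / √(Du u))|
      ≤ x * ((∫ u in Set.Ioi 0, ‖ρ u / Du u‖) * x) := by gcongr
    _ = _ := by ring

theorem F_rep_aux (hρ : Continuous ρ) (hc : ∀ θ : ℝ, 0 < θ →
    IntegrableOn (fun u => ρ u / (Real.cosh (3 * u) + Real.cosh (3 * θ))) (Set.Ioi 0) ∧
      ∫ u in Set.Ioi 0, ρ u / (Real.cosh (3 * u) + Real.cosh (3 * θ)) = kap θ) :
    (∫ u in Set.Ioi 0, ρ u / Du u = 1) ∧ ∀ x : ℝ, 0 < x → x * psi ρ x = Ff x := by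
  have hI := int_rho_D hρ hc
  obtain ⟨c, hcc⟩ := psi_const hρ hc
  set I0 := ∫ u in Set.Ioi 0, ρ u / Du u with hI0
  set B := ∫ u in Set.Ioi 0, ‖ρ u / Du u‖ with hB
  have hb : ∀ x : ℝ, 0 < x → |Ff x + c * x - I0| ≤ B * x ^ 2 := by
    intro x hx
    have h := psi_bound hI hx
    have h2 := hcc x hx
    have e : x * psi ρ x = Ff x + c * x := by
      have : psi ρ x = Ff x / x + c := by linarith
      rw [this]; field_simp
    rwa [e] at h
  have hFc : Tendsto Ff (𝓝[>] 0) (𝓝 1) := by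
    have h := (Ff_deriv 0).continuousAt.tendsto
    rw [Ff_zero] at h
    exact h.mono_left nhdsWithin_le_nhds
  have hid : Tendsto (fun x : ℝ => x) (𝓝[>] 0) (𝓝 0) :=
    (continuous_id.tendsto 0).mono_left nhdsWithin_le_nhds
  have h1 : |1 + c * 0 - I0| ≤ B * 0 ^ 2 := by
    refine le_of_tendsto_of_tendsto (((hFc.add (hid.const_mul c)).sub_const I0).abs)
      ((hid.pow 2).const_mul B) ?_
    filter_upwards [self_mem_nhdsWithin] with x hx
    exact hb x hx
  have hI1 : I0 = 1 := by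
    have : |1 + c * 0 - I0| ≤ 0 := by simpa using h1
    have := abs_nonpos_iff.mp this
    linarith
  have hder : Tendsto (fun x => (Ff x - 1) / x) (𝓝[>] 0) (𝓝 0) := by
    have h := (hasDerivAt_iff_tendsto_slope.mp (Ff_deriv 0))
    have h' := h.mono_left (nhdsWithin_mono 0 (fun x (hx : x ∈ Set.Ioi 0) => ne_of_gt hx))
    rw [apar_zero] at h'
    have e0 : (0:ℝ) * √(1 + 0 ^ 2) / (1 + 2 * 0 ^ 2) = 0 := by simp
    rw [e0] at h'
    refine h'.congr fun x => ?_
    rw [slope_def_field, Ff_zero, sub_zero]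
  have h2 : |0 + c| ≤ B * 0 := by
    refine le_of_tendsto_of_tendsto ((hder.add_const c).abs) (hid.const_mul B) ?_
    filter_upwards [self_mem_nhdsWithin] with x hx
    have hx' : 0 < x := hx
    have h3 := hb x hx'
    rw [hI1] at h3
    have e : (Ff x - 1) / x + c = (Ff x + c * x - 1) / x := by field_simp; ring
    rw [e, abs_div, abs_of_pos hx', div_le_iff₀ hx']
    linarith
  have hc0 : c = 0 := by
    have : |0 + c| ≤ 0 := by simpa using h2
    have := abs_nonpos_iff.mp this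
    linarith
  refine ⟨hI1, fun x hx => ?_⟩
  have h2 := hcc x hx
  rw [hc0, sub_eq_zero] at h2
  rw [h2]
  field_simp

theorem F_rep (hρ : Continuous ρ) (hc : ∀ θ : ℝ, 0 < θ →
    IntegrableOn (fun u => ρ u / (Real.cosh (3 * u) + Real.cosh (3 * θ))) (Set.Ioi 0) ∧
      ∫ u in Set.Ioi 0, ρ u / (Real.cosh (3 * u) + Real.cosh (3 * θ)) = kap θ)
    {x r : ℝ} (hr : 0 < r) :
    IntegrableOn (fun u => ρ u * (r / Du u + x * Real.arctan (x / r / √(Du u)) / (Du u * √(Du u))))
      (Set.Ioi 0) ∧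
    ∫ u in Set.Ioi 0, ρ u * (r / Du u + x * Real.arctan (x / r / √(Du u)) / (Du u * √(Du u))) =
      r * Ff (x / r) := by
  have hI := int_rho_D hρ hc
  obtain ⟨h1, h2⟩ := F_rep_aux hρ hc
  have hpos : ∀ y : ℝ, 0 < y →
      ∫ u in Set.Ioi 0, ρ u / Du u * (1 + y * Real.arctan (y / √(Du u)) / √(Du u)) = Ff y := by
    intro y hy
    rw [← h2 y hy]
    unfold psi
    rw [← integral_const_mul]
    refine integral_congr_ae (Eventually.of_forall fun u => ?_)
    dsimp only
    field_simp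
  have hall : ∀ y : ℝ,
      ∫ u in Set.Ioi 0, ρ u / Du u * (1 + y * Real.arctan (y / √(Du u)) / √(Du u)) = Ff y := by
    intro y
    rcases lt_trichotomy y 0 with hy | hy | hy
    · have h3 := hpos (-y) (by linarith)
      rw [Ff_neg] at h3
      rw [← h3]
      refine integral_congr_ae (Eventually.of_forall fun u => ?_)
      dsimp only
      rw [neg_div, Real.arctan_neg]
      ring
    · rw [hy, Ff_zero]
      refine Eq.trans ?_ h1
      refine integral_congr_ae (Eventually.of_forall fun u => ?_)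
      dsimp only
      ring
    · exact hpos y hy
  have e : ∀ u, ρ u * (r / Du u + x * Real.arctan (x / r / √(Du u)) / (Du u * √(Du u))) =
      r * (ρ u / Du u * (1 + x / r * Real.arctan (x / r / √(Du u)) / √(Du u))) := by
    intro u
    field_simp
  constructor
  · simp only [e]
    apply Integrable.const_mul
    have h3 := hI.add ((int_arctan hI (x / r)).const_mul (x / r))
    refine h3.congr (Eventually.of_forall fun u => ?_)
    simp only [Pi.add_apply]
    ring
  · simp only [e]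
    rw [integral_const_mul, hall]

theorem M_rep (hρ : Continuous ρ) (hc : ∀ θ : ℝ, 0 < θ →
    IntegrableOn (fun u => ρ u / (Real.cosh (3 * u) + Real.cosh (3 * θ))) (Set.Ioi 0) ∧
      ∫ u in Set.Ioi 0, ρ u / (Real.cosh (3 * u) + Real.cosh (3 * θ)) = kap θ) :
    IntegrableOn (fun u => ρ u * (Real.pi / (2 * Du u * √(Du u)))) (Set.Ioi 0) ∧
    ∫ u in Set.Ioi 0, ρ u * (Real.pi / (2 * Du u * √(Du u))) = 1 / 2 := by
  have hI := int_rho_D hρ hc
  obtain ⟨h1, h2⟩ := F_rep_aux hρ hc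
  have e : ∀ u, ρ u * (Real.pi / (2 * Du u * √(Du u))) =
      ρ u / Du u * (0 + Real.pi / 2 / √(Du u)) := by
    intro u
    field_simp
    ring
  constructor
  · simp only [e]
    refine Integrable.mul_bdd (c := Real.pi) hI ?_ (Eventually.of_forall fun u => ?_)
    · apply Measurable.aestronglyMeasurable
      have : Measurable Du := continuous_Du.measurable
      fun_prop
    · have h1 := one_le_Du u
      have h2 : 1 ≤ √(Du u) := Real.one_le_sqrt.mpr h1
      have := Real.pi_pos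
      rw [zero_add, Real.norm_of_nonneg (by positivity), div_le_iff₀ (by linarith)]
      nlinarith
  · simp only [e]
    have hlim : Tendsto (fun n : ℕ => psi ρ ((n:ℝ) + 1)) atTop
        (𝓝 (∫ u in Set.Ioi 0, ρ u / Du u * (0 + Real.pi / 2 / √(Du u)))) := by
      unfold psi
      refine tendsto_integral_of_dominated_convergence (fun u => ‖ρ u / Du u‖ * (1 + Real.pi))
        (fun n => (int_psi hI _).aestronglyMeasurable) (hI.norm.mul_const _) ?_ ?_
      · intro n
        refine Eventually.of_forall fun u => ?_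
        have h1 := one_le_Du u
        have h2 : 1 ≤ √(Du u) := Real.one_le_sqrt.mpr h1
        rw [norm_mul]
        gcongr
        rw [Real.norm_eq_abs]
        refine (abs_add_le _ _).trans ?_
        have hn : (0:ℝ) ≤ n := Nat.cast_nonneg n
        gcongr
        · rw [abs_of_pos (by positivity), div_le_one (by positivity)]
          linarith
        · rw [abs_div, abs_of_nonneg (Real.sqrt_nonneg _)]
          have h3 : |Real.arctan (((n:ℝ) + 1) / √(Du u))| ≤ Real.pi := by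
            have h4 := Real.neg_pi_div_two_lt_arctan (((n:ℝ) + 1) / √(Du u))
            have h5 := Real.arctan_lt_pi_div_two (((n:ℝ) + 1) / √(Du u))
            have := Real.pi_pos
            rw [abs_le]; constructor <;> linarith
          rw [div_le_iff₀ (by linarith)]
          have := Real.pi_pos
          nlinarith
      · refine Eventually.of_forall fun u => ?_
        have h1 := one_le_Du u
        have hs : 0 < √(Du u) := Real.sqrt_pos.mpr (by linarith)
        have hn : Tendsto (fun n : ℕ => (n:ℝ) + 1) atTop atTop :=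
          tendsto_atTop_add_const_right _ _ tendsto_natCast_atTop_atTop
        refine Tendsto.const_mul _ (Tendsto.add ?_ (Tendsto.div_const ?_ _))
        · exact tendsto_one_div_add_atTop_nhds_zero_nat (𝕜 := ℝ)
        · exact (tendsto_nhds_of_tendsto_nhdsWithin Real.tendsto_arctan_atTop).comp
            (hn.atTop_div_const hs)
    have hlim2 : Tendsto (fun n : ℕ => psi ρ ((n:ℝ) + 1)) atTop (𝓝 (1 / 2)) := by
      have hn : Tendsto (fun n : ℕ => (n:ℝ) + 1) atTop atTop :=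
        tendsto_atTop_add_const_right _ _ tendsto_natCast_atTop_atTop
      refine (tendsto_Ff_div.comp hn).congr fun n => ?_
      simp only [Function.comp_apply]
      have hp : (0:ℝ) < (n:ℝ) + 1 := by positivity
      rw [← h2 _ hp]
      field_simp
    exact tendsto_nhds_unique hlim hlim2

end Rep2



section Gauss

variable {E : Type*} [NormedAddCommGroup E] [InnerProductSpace ℝ E] [FiniteDimensional ℝ E]
  [MeasurableSpace E] [BorelSpace E]

theorem map_inner_stdGaussian (w : E) :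
    (stdGaussian E).map (fun g => inner ℝ w g) = gaussianReal 0 (‖w‖ ^ 2).toNNReal := by
  have h := IsGaussian.map_eq_gaussianReal (μ := stdGaussian E) (innerSL ℝ w)
  rw [integral_strongDual_stdGaussian, variance_dual_stdGaussian, innerSL_apply_norm] at h
  exact h

/-- projection off the direction `e` -/
noncomputable def Pr (e z : E) : E := z - inner ℝ e z • e

omit [FiniteDimensional ℝ E] [MeasurableSpace E] [BorelSpace E] in
theorem inner_Pr (e z g : E) : inner ℝ z (Pr e g) = inner ℝ (Pr e z) g := by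
  unfold Pr
  rw [inner_sub_left, inner_sub_right, inner_smul_right, real_inner_smul_left,
    real_inner_comm z e]
  ring

theorem gauss_lint (e z : E) {l : ℝ} (hl : 0 < l) :
    ∫⁻ g, ENNReal.ofReal |inner ℝ z (e - (√(2 * l))⁻¹ • Pr e g)| ∂(stdGaussian E) =
      ENNReal.ofReal (√(Real.pi / l))⁻¹ *
        ∫⁻ b, ENNReal.ofReal (|inner ℝ e z - ‖Pr e z‖ * b| * Real.exp (-(l * b ^ 2))) := by
  set x : ℝ := inner ℝ e z with hx
  set r : ℝ := ‖Pr e z‖ with hr
  have h1 : ∀ g, inner ℝ z (e - (√(2 * l))⁻¹ • Pr e g) =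
      x - (√(2 * l))⁻¹ * inner ℝ (Pr e z) g := by
    intro g
    rw [inner_sub_right, inner_smul_right, inner_Pr, real_inner_comm]
  simp only [h1]
  have h2 : ∫⁻ g, ENNReal.ofReal |x - (√(2 * l))⁻¹ * inner ℝ (Pr e z) g| ∂(stdGaussian E) =
      ∫⁻ t, ENNReal.ofReal |x - (√(2 * l))⁻¹ * t| ∂(gaussianReal 0 (r ^ 2).toNNReal) := by
    rw [hr, ← map_inner_stdGaussian, lintegral_map (by fun_prop) (by fun_prop)]
  have h3 : gaussianReal 0 (r ^ 2).toNNReal =
      (gaussianReal 0 (1 / (2 * l)).toNNReal).map (fun b => (√(2 * l) * r) * b) := by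
    rw [gaussianReal_map_const_mul]
    congr 1
    · ring
    · ext
      rw [NNReal.coe_mul, NNReal.coe_mk, Real.coe_toNNReal _ (by positivity),
        Real.coe_toNNReal _ (by positivity), mul_pow, Real.sq_sqrt (by positivity)]
      field_simp
  rw [h2, h3, lintegral_map (by fun_prop) (by fun_prop)]
  have h4 : ∀ b, (√(2 * l))⁻¹ * (√(2 * l) * r * b) = r * b := by
    intro b
    have : √(2 * l) ≠ 0 := by positivity
    field_simp
  simp only [h4]
  have hv : (1 / (2 * l)).toNNReal ≠ 0 := by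
    simp [hl]
  rw [gaussianReal_of_var_ne_zero _ hv, lintegral_withDensity_eq_lintegral_mul _ (by fun_prop)
    (by fun_prop), ← lintegral_const_mul _ (by fun_prop)]
  refine lintegral_congr fun b => ?_
  rw [Pi.mul_apply, gaussianPDF, gaussianPDFReal, ← ENNReal.ofReal_mul (by positivity),
    ← ENNReal.ofReal_mul (by positivity)]
  congr 1
  rw [Real.coe_toNNReal _ (by positivity)]
  have e1 : 2 * Real.pi * (1 / (2 * l)) = Real.pi / l := by field_simp
  have e2 : -(b - 0) ^ 2 / (2 * (1 / (2 * l))) = -(l * b ^ 2) := by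
    field_simp; ring
  rw [e1, e2]
  ring

theorem gamma_lint {al s : ℝ} (hal : 0 < al) (hs : 0 < s) :
    ∫⁻ l in Set.Ioi (0:ℝ), ENNReal.ofReal (l ^ (al - 1) * Real.exp (-(s * l))) =
      ENNReal.ofReal ((1 / s) ^ al * Real.Gamma al) := by
  have h1 : IntegrableOn (fun l : ℝ => l ^ (al - 1) * Real.exp (-(s * l))) (Set.Ioi 0) := by
    have := integrableOn_rpow_mul_exp_neg_mul_rpow (p := 1) (s := al - 1) (b := s)
      (by linarith) one_pos hs
    simpa using this
  rw [← Real.integral_rpow_mul_exp_neg_mul_Ioi hal hs, ofReal_integral_eq_lintegral_ofReal h1]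
  refine (ae_restrict_iff' measurableSet_Ioi).mpr (Eventually.of_forall fun l hl => ?_)
  have : (0:ℝ) < l := hl
  positivity

theorem mix_lint (e z : E) {al D : ℝ} (hal : 0 < al) (hD : 0 < D) :
    ∫⁻ l in Set.Ioi (0:ℝ), ENNReal.ofReal (l ^ (al - 1) * Real.exp (-(D * l)) * √(Real.pi / l)) *
        ∫⁻ g, ENNReal.ofReal |inner ℝ z (e - (√(2 * l))⁻¹ • Pr e g)| ∂(stdGaussian E) =
      ∫⁻ b, ENNReal.ofReal (|inner ℝ e z - ‖Pr e z‖ * b| *
        ((1 / (D + b ^ 2)) ^ al * Real.Gamma al)) := by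
  set x : ℝ := inner ℝ e z with hx
  set r : ℝ := ‖Pr e z‖ with hr
  have h1 : ∫⁻ l in Set.Ioi (0:ℝ),
      ENNReal.ofReal (l ^ (al - 1) * Real.exp (-(D * l)) * √(Real.pi / l)) *
        ∫⁻ g, ENNReal.ofReal |inner ℝ z (e - (√(2 * l))⁻¹ • Pr e g)| ∂(stdGaussian E) =
      ∫⁻ l in Set.Ioi (0:ℝ), ∫⁻ b, ENNReal.ofReal
        (|x - r * b| * (l ^ (al - 1) * Real.exp (-((D + b ^ 2) * l)))) := by
    refine setLIntegral_congr_fun measurableSet_Ioi fun l hl => ?_
    have hl' : (0:ℝ) < l := hl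
    rw [gauss_lint e z hl', ← mul_assoc, ← ENNReal.ofReal_mul (by positivity),
      ← lintegral_const_mul _ (by fun_prop)]
    refine lintegral_congr fun b => ?_
    rw [← ENNReal.ofReal_mul (by positivity)]
    congr 1
    have e1 : Real.exp (-((D + b ^ 2) * l)) = Real.exp (-(D * l)) * Real.exp (-(l * b ^ 2)) := by
      rw [← Real.exp_add]; congr 1; ring
    rw [e1]
    have e2 : √(Real.pi / l) ≠ 0 := by
      have := Real.pi_pos
      positivity
    rw [← hx, ← hr]
    field_simp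
  rw [h1, lintegral_lintegral_swap]
  · refine lintegral_congr fun b => ?_
    have hb : 0 < D + b ^ 2 := by positivity
    rw [ENNReal.ofReal_mul (abs_nonneg _), ← gamma_lint hal hb,
      ← lintegral_const_mul _ (by fun_prop)]
    refine lintegral_congr fun l => ?_
    rw [ENNReal.ofReal_mul (abs_nonneg _)]
  · apply Measurable.aemeasurable
    fun_prop

end Gauss



section OneDim

theorem lint_Ioi {H H' : ℝ → ℝ} {a L : ℝ} (hd : ∀ b, HasDerivAt H (H' b) b)
    (hnn : ∀ b, a < b → 0 ≤ H' b) (hL : Tendsto H atTop (𝓝 L)) :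
    ∫⁻ b in Set.Ioi a, ENNReal.ofReal (H' b) = ENNReal.ofReal (L - H a) := by
  have h1 : IntegrableOn H' (Set.Ioi a) :=
    integrableOn_Ioi_deriv_of_nonneg' (fun b _ => hd b) hnn hL
  have h2 : ∫ b in Set.Ioi a, H' b = L - H a :=
    integral_Ioi_of_hasDerivAt_of_nonneg' (fun b _ => hd b) hnn hL
  rw [← h2, ofReal_integral_eq_lintegral_ofReal h1]
  exact (ae_restrict_iff' measurableSet_Ioi).mpr (Eventually.of_forall hnn)

theorem lint_Iic {H H' : ℝ → ℝ} {a L : ℝ} (hd : ∀ b, HasDerivAt H (H' b) b)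
    (hnn : ∀ b, b < a → 0 ≤ H' b) (hL : Tendsto H atBot (𝓝 L)) :
    ∫⁻ b in Set.Iic a, ENNReal.ofReal (H' b) = ENNReal.ofReal (H a - L) := by
  have h1 := lint_Ioi (H := fun b => -H (-b)) (H' := fun b => H' (-b)) (a := -a) (L := -L)
    (fun b => by
      have h : HasDerivAt (fun b => -H (-b)) (-(H' (-b) * -1)) b :=
        ((hd (-b)).comp b (hasDerivAt_neg b)).neg
      rwa [mul_neg_one, neg_neg] at h)
    (fun b hb => hnn _ (by linarith)) (hL.comp tendsto_neg_atTop_atBot).neg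
  have h2 : ∫⁻ b in Set.Iic a, ENNReal.ofReal (H' b) =
      ∫⁻ b in Set.Ioi (-a), ENNReal.ofReal (H' (-b)) := by
    rw [← setLIntegral_congr Iio_ae_eq_Iic]
    have h3 := (Measure.measurePreserving_neg (volume : Measure ℝ)).setLIntegral_comp_preimage_emb
      (MeasurableEquiv.neg ℝ).measurableEmbedding (fun b => ENNReal.ofReal (H' b)) (Set.Iio a)
    rw [← h3]
    congr 1
    ext b
    simp
  rw [h2, h1]
  congr 1
  simp
  ring

theorem lint_abs {G1 G2 w : ℝ → ℝ} {M : ℝ} (hG1 : ∀ b, HasDerivAt G1 (w b) b)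
    (hG2 : ∀ b, HasDerivAt G2 (b * w b) b) (hw : ∀ b, 0 ≤ w b)
    (hT : Tendsto G1 atTop (𝓝 M)) (hB : Tendsto G1 atBot (𝓝 (-M)))
    (hT2 : Tendsto G2 atTop (𝓝 0)) (hB2 : Tendsto G2 atBot (𝓝 0)) {x r : ℝ} (hr : 0 < r) :
    ∫⁻ b, ENNReal.ofReal (|x - r * b| * w b) =
      ENNReal.ofReal (2 * (x * G1 (x / r) - r * G2 (x / r))) := by
  set H : ℝ → ℝ := fun b => x * G1 b - r * G2 b with hH
  have hd : ∀ b, HasDerivAt H ((x - r * b) * w b) b := by
    intro b
    have h : HasDerivAt H (x * w b - r * (b * w b)) b :=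
      ((hG1 b).const_mul x).sub ((hG2 b).const_mul r)
    have e : x * w b - r * (b * w b) = (x - r * b) * w b := by ring
    rwa [e] at h
  have h1 := lint_Iic (H := H) (a := x / r) (L := x * (-M) - r * 0) hd
    (fun b hb => by
      rw [lt_div_iff₀ hr] at hb
      exact mul_nonneg (by linarith) (hw b)) ((hB.const_mul x).sub (hB2.const_mul r))
  have h2 := lint_Ioi (H := fun b => -H b) (H' := fun b => -((x - r * b) * w b)) (a := x / r)
    (L := -(x * M - r * 0)) (fun b => (hd b).neg)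
    (fun b hb => by
      rw [div_lt_iff₀ hr] at hb
      have : 0 ≤ (r * b - x) * w b := mul_nonneg (by linarith) (hw b)
      linarith) ((hT.const_mul x).sub (hT2.const_mul r)).neg
  have h1' : ∫⁻ b in Set.Iic (x / r), ENNReal.ofReal (|x - r * b| * w b) =
      ENNReal.ofReal (H (x / r) + x * M) := by
    rw [show H (x / r) + x * M = H (x / r) - (x * (-M) - r * 0) by ring, ← h1]
    refine setLIntegral_congr_fun measurableSet_Iic fun b hb => ?_
    simp only [Set.mem_Iic] at hb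
    rw [le_div_iff₀ hr] at hb
    rw [abs_of_nonneg (by linarith)]
  have h2' : ∫⁻ b in Set.Ioi (x / r), ENNReal.ofReal (|x - r * b| * w b) =
      ENNReal.ofReal (H (x / r) - x * M) := by
    rw [show H (x / r) - x * M = -(x * M - r * 0) - (-H (x / r)) by ring, ← h2]
    refine setLIntegral_congr_fun measurableSet_Ioi fun b hb => ?_
    simp only [Set.mem_Ioi] at hb
    rw [div_lt_iff₀ hr] at hb
    rw [abs_of_neg (by linarith), neg_mul]
  have n1 : 0 ≤ H (x / r) + x * M := by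
    have hmono : Tendsto H atBot (𝓝 (x * (-M) - r * 0)) := (hB.const_mul x).sub (hB2.const_mul r)
    have : x * (-M) - r * 0 ≤ H (x / r) := by
      refine le_of_tendsto hmono ?_
      filter_upwards [eventually_le_atBot (x / r)] with b hb
      have hmon : MonotoneOn H (Set.Iic (x / r)) := by
        refine monotoneOn_of_deriv_nonneg (convex_Iic _)
          (fun b _ => (hd b).continuousAt.continuousWithinAt)
          (fun b _ => (hd b).differentiableAt.differentiableWithinAt) fun b hb => ?_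
        rw [interior_Iic] at hb
        rw [(hd b).deriv]
        have hb' : b < x / r := hb
        rw [lt_div_iff₀ hr] at hb'
        exact mul_nonneg (by linarith) (hw b)
      exact hmon (Set.mem_Iic.mpr hb) (Set.mem_Iic.mpr le_rfl) hb
    linarith
  have n2 : 0 ≤ H (x / r) - x * M := by
    have hmono : Tendsto H atTop (𝓝 (x * M - r * 0)) := (hT.const_mul x).sub (hT2.const_mul r)
    have : x * M - r * 0 ≤ H (x / r) := by
      refine le_of_tendsto hmono ?_
      filter_upwards [eventually_ge_atTop (x / r)] with b hb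
      have hmon : AntitoneOn H (Set.Ici (x / r)) := by
        refine antitoneOn_of_deriv_nonpos (convex_Ici _)
          (fun b _ => (hd b).continuousAt.continuousWithinAt)
          (fun b _ => (hd b).differentiableAt.differentiableWithinAt) fun b hb => ?_
        rw [interior_Ici] at hb
        rw [(hd b).deriv]
        have hb' : x / r < b := hb
        rw [div_lt_iff₀ hr] at hb'
        exact mul_nonpos_of_nonpos_of_nonneg (by linarith) (hw b)
      exact hmon (Set.mem_Ici.mpr le_rfl) (Set.mem_Ici.mpr hb) hb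
    linarith
  rw [← lintegral_add_compl _ (measurableSet_Iic (a := x / r)), Set.compl_Iic, h1', h2',
    ← ENNReal.ofReal_add n1 n2]
  congr 1
  ring

theorem lint_abs_zero {G1 w : ℝ → ℝ} {M : ℝ} (hG1 : ∀ b, HasDerivAt G1 (w b) b)
    (hw : ∀ b, 0 ≤ w b)
    (hT : Tendsto G1 atTop (𝓝 M)) (hB : Tendsto G1 atBot (𝓝 (-M))) {x : ℝ} :
    ∫⁻ b, ENNReal.ofReal (|x - 0 * b| * w b) = ENNReal.ofReal (|x| * (2 * M)) := by
  have hmon : Monotone G1 := monotone_of_hasDerivAt_nonneg hG1 hw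
  have h1 := lint_Iic (a := 0) hG1 (fun b _ => hw b) hB
  have h2 := lint_Ioi (a := 0) hG1 (fun b _ => hw b) hT
  have n1 : 0 ≤ G1 0 - -M := by
    have : -M ≤ G1 0 := hmon.le_of_tendsto hB 0
    linarith
  have n2 : 0 ≤ M - G1 0 := by
    have : G1 0 ≤ M := hmon.ge_of_tendsto hT 0
    linarith
  have h3 : ∫⁻ b, ENNReal.ofReal (w b) = ENNReal.ofReal (2 * M) := by
    rw [← lintegral_add_compl _ (measurableSet_Iic (a := (0:ℝ))), Set.compl_Iic, h1, h2,
      ← ENNReal.ofReal_add n1 n2]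
    congr 1
    ring
  have hwm : Measurable w := by
    have : w = deriv G1 := by ext b; exact (hG1 b).deriv.symm
    rw [this]; exact measurable_deriv G1
  rw [ENNReal.ofReal_mul (abs_nonneg x), ← h3, ← lintegral_const_mul _ (by fun_prop)]
  refine lintegral_congr fun b => ?_
  rw [zero_mul, sub_zero, ENNReal.ofReal_mul (abs_nonneg x)]

theorem G1D_deriv {D : ℝ} (hD : 0 < D) (b : ℝ) :
    HasDerivAt (fun b => b / (2 * D * (D + b ^ 2)) + Real.arctan (b / √D) / (2 * D * √D))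
      (1 / (D + b ^ 2) ^ 2) b := by
  have hs : 0 < √D := Real.sqrt_pos.mpr hD
  have hss : √D ^ 2 = D := Real.sq_sqrt hD.le
  have hb : 0 < D + b ^ 2 := by positivity
  have h1 : HasDerivAt (fun b : ℝ => 2 * D * (D + b ^ 2)) (2 * D * (2 * b)) b := by
    have := ((hasDerivAt_pow 2 b).const_add D).const_mul (2 * D)
    simpa using this
  have h2 : HasDerivAt (fun b : ℝ => b / (2 * D * (D + b ^ 2)))
      ((1 * (2 * D * (D + b ^ 2)) - b * (2 * D * (2 * b))) / (2 * D * (D + b ^ 2)) ^ 2) b :=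
    (hasDerivAt_id b).div h1 (by positivity)
  have h3 : HasDerivAt (fun b : ℝ => Real.arctan (b / √D) / (2 * D * √D))
      (1 / (1 + (b / √D) ^ 2) * (1 / √D) / (2 * D * √D)) b :=
    (((hasDerivAt_id b).div_const (√D)).arctan).div_const _
  have h4 := h2.add h3
  have e : (1 * (2 * D * (D + b ^ 2)) - b * (2 * D * (2 * b))) / (2 * D * (D + b ^ 2)) ^ 2 +
      1 / (1 + (b / √D) ^ 2) * (1 / √D) / (2 * D * √D) = 1 / (D + b ^ 2) ^ 2 := by
    have e1 : (b / √D) ^ 2 = b ^ 2 / D := by rw [div_pow, hss]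
    have e2 : 1 / (1 + (b / √D) ^ 2) * (1 / √D) / (2 * D * √D) =
        1 / (1 + b ^ 2 / D) / (2 * D * √D ^ 2) := by
      rw [e1]; field_simp
    rw [e2, hss]
    field_simp
    ring
  rw [e] at h4
  exact h4

theorem G2D_deriv {D : ℝ} (hD : 0 < D) (b : ℝ) :
    HasDerivAt (fun b => -(1 / (2 * (D + b ^ 2)))) (b * (1 / (D + b ^ 2) ^ 2)) b := by
  have hb : 0 < D + b ^ 2 := by positivity
  have h1 : HasDerivAt (fun b : ℝ => 2 * (D + b ^ 2)) (2 * (2 * b)) b := by
    have := ((hasDerivAt_pow 2 b).const_add D).const_mul 2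
    simpa using this
  have h2 : HasDerivAt (fun b : ℝ => -(1 / (2 * (D + b ^ 2))))
      (-((0 * (2 * (D + b ^ 2)) - 1 * (2 * (2 * b))) / (2 * (D + b ^ 2)) ^ 2)) b :=
    ((hasDerivAt_const b (1:ℝ)).div h1 (by positivity)).neg
  have e : -((0 * (2 * (D + b ^ 2)) - 1 * (2 * (2 * b))) / (2 * (D + b ^ 2)) ^ 2) =
      b * (1 / (D + b ^ 2) ^ 2) := by
    field_simp
    ring
  rwa [e] at h2

theorem tendsto_inv_quad {D : ℝ} (hD : 0 < D) :
    Tendsto (fun b : ℝ => 1 / (D + b ^ 2)) atTop (𝓝 0) ∧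
    Tendsto (fun b : ℝ => 1 / (D + b ^ 2)) atBot (𝓝 0) := by
  constructor
  · simp only [one_div]
    exact tendsto_inv_atTop_zero.comp
      (tendsto_atTop_add_const_left _ _ (tendsto_pow_atTop (by norm_num)))
  · simp only [one_div]
    refine tendsto_inv_atTop_zero.comp
      (tendsto_atTop_add_const_left _ _ ?_)
    have h := (tendsto_pow_atTop (α := ℝ) (n := 2) (by norm_num)).comp tendsto_neg_atBot_atTop
    refine h.congr fun b => ?_
    simp

theorem tendsto_lin_quad {D : ℝ} (hD : 0 < D) :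
    Tendsto (fun b : ℝ => b / (D + b ^ 2)) atTop (𝓝 0) ∧
    Tendsto (fun b : ℝ => b / (D + b ^ 2)) atBot (𝓝 0) := by
  have key : ∀ b : ℝ, ‖b / (D + b ^ 2)‖ ≤ √(1 / (D + b ^ 2)) := by
    intro b
    have hb : 0 < D + b ^ 2 := by positivity
    rw [Real.norm_eq_abs]
    apply Real.abs_le_sqrt
    rw [div_pow, div_le_div_iff₀ (by positivity) hb]
    nlinarith
  have h1 := (tendsto_inv_quad hD).1.sqrt
  have h2 := (tendsto_inv_quad hD).2.sqrt
  rw [Real.sqrt_zero] at h1 h2
  exact ⟨squeeze_zero_norm key h1, squeeze_zero_norm key h2⟩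

theorem G1D_tendsto {D : ℝ} (hD : 0 < D) :
    Tendsto (fun b => b / (2 * D * (D + b ^ 2)) + Real.arctan (b / √D) / (2 * D * √D)) atTop
      (𝓝 (Real.pi / (4 * D * √D))) ∧
    Tendsto (fun b => b / (2 * D * (D + b ^ 2)) + Real.arctan (b / √D) / (2 * D * √D)) atBot
      (𝓝 (-(Real.pi / (4 * D * √D)))) := by
  have hs : 0 < √D := Real.sqrt_pos.mpr hD
  have e0 : ∀ b : ℝ, b / (2 * D * (D + b ^ 2)) = (b / (D + b ^ 2)) * (1 / (2 * D)) := by
    intro b
    have hb : 0 < D + b ^ 2 := by positivity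
    field_simp
  constructor
  · have h1 := (tendsto_lin_quad hD).1.mul_const (1 / (2 * D))
    have h2 : Tendsto (fun b : ℝ => Real.arctan (b / √D)) atTop (𝓝 (Real.pi / 2)) :=
      (tendsto_nhds_of_tendsto_nhdsWithin Real.tendsto_arctan_atTop).comp
        (tendsto_id.atTop_div_const hs)
    have h3 := h1.add (h2.div_const (2 * D * √D))
    have e1 : 0 * (1 / (2 * D)) + Real.pi / 2 / (2 * D * √D) = Real.pi / (4 * D * √D) := by
      field_simp; ring
    rw [e1] at h3
    refine h3.congr fun b => ?_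
    rw [e0]
  · have h1 := (tendsto_lin_quad hD).2.mul_const (1 / (2 * D))
    have h2 : Tendsto (fun b : ℝ => Real.arctan (b / √D)) atBot (𝓝 (-(Real.pi / 2))) :=
      (tendsto_nhds_of_tendsto_nhdsWithin Real.tendsto_arctan_atBot).comp
        (tendsto_id.atBot_div_const hs)
    have h3 := h1.add (h2.div_const (2 * D * √D))
    have e1 : 0 * (1 / (2 * D)) + -(Real.pi / 2) / (2 * D * √D) = -(Real.pi / (4 * D * √D)) := by
      field_simp; ring
    rw [e1] at h3
    refine h3.congr fun b => ?_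
    rw [e0]

theorem G2D_tendsto {D : ℝ} (hD : 0 < D) :
    Tendsto (fun b : ℝ => -(1 / (2 * (D + b ^ 2)))) atTop (𝓝 0) ∧
    Tendsto (fun b : ℝ => -(1 / (2 * (D + b ^ 2)))) atBot (𝓝 0) := by
  have e0 : ∀ b : ℝ, -(1 / (2 * (D + b ^ 2))) = (1 / (D + b ^ 2)) * (-(1 / 2)) := by
    intro b
    have hb : 0 < D + b ^ 2 := by positivity
    field_simp
  simp only [e0]
  have h1 := (tendsto_inv_quad hD).1.mul_const (-(1 / 2))
  have h2 := (tendsto_inv_quad hD).2.mul_const (-(1 / 2))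
  rw [zero_mul] at h1 h2
  exact ⟨h1, h2⟩

theorem inst_D {D : ℝ} (hD : 0 < D) {x r : ℝ} (hr : 0 < r) :
    ∫⁻ b, ENNReal.ofReal (|x - r * b| * (1 / (D + b ^ 2) ^ 2)) =
      ENNReal.ofReal (r / D + x * Real.arctan (x / r / √D) / (D * √D)) := by
  have hs : 0 < √D := Real.sqrt_pos.mpr hD
  rw [lint_abs (G1D_deriv hD) (G2D_deriv hD) (fun b => by positivity) (G1D_tendsto hD).1
    (G1D_tendsto hD).2 (G2D_tendsto hD).1 (G2D_tendsto hD).2 hr]
  congr 1
  have hb : 0 < D + (x / r) ^ 2 := by positivity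
  have hb2 : 0 < D * r ^ 2 + x ^ 2 := by positivity
  field_simp
  ring

theorem inst_D_zero {D : ℝ} (hD : 0 < D) {x : ℝ} :
    ∫⁻ b, ENNReal.ofReal (|x - 0 * b| * (1 / (D + b ^ 2) ^ 2)) =
      ENNReal.ofReal (|x| * (Real.pi / (2 * D * √D))) := by
  have hs : 0 < √D := Real.sqrt_pos.mpr hD
  rw [lint_abs_zero (G1D_deriv hD) (fun b => by positivity) (G1D_tendsto hD).1
    (G1D_tendsto hD).2]
  congr 2
  field_simp
  ring

theorem sqrt_quad_deriv (b : ℝ) :
    HasDerivAt (fun b : ℝ => √(1 + b ^ 2)) (b / √(1 + b ^ 2)) b := by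
  have hb : 0 < 1 + b ^ 2 := by positivity
  have h1 : HasDerivAt (fun b : ℝ => 1 + b ^ 2) (2 * b) b := by
    have := (hasDerivAt_pow 2 b).const_add 1
    simpa using this
  have h2 := h1.sqrt hb.ne'
  have e : 2 * b / (2 * √(1 + b ^ 2)) = b / √(1 + b ^ 2) := by
    rw [mul_div_mul_left _ _ (by norm_num : (2:ℝ) ≠ 0)]
  rwa [e] at h2

theorem G1K_deriv (b : ℝ) :
    HasDerivAt (fun b : ℝ => b * (3 + 2 * b ^ 2) / (3 * (1 + b ^ 2) * √(1 + b ^ 2)))
      (1 / ((1 + b ^ 2) ^ 2 * √(1 + b ^ 2))) b := by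
  have hb : 0 < 1 + b ^ 2 := by positivity
  have hs : 0 < √(1 + b ^ 2) := Real.sqrt_pos.mpr hb
  have hss : √(1 + b ^ 2) ^ 2 = 1 + b ^ 2 := Real.sq_sqrt hb.le
  have h1 : HasDerivAt (fun b : ℝ => 3 * (1 + b ^ 2)) (3 * (2 * b)) b := by
    have := ((hasDerivAt_pow 2 b).const_add 1).const_mul 3
    simpa using this
  have h1' : HasDerivAt (fun b : ℝ => 3 + 2 * b ^ 2) (2 * (2 * b)) b := by
    have := ((hasDerivAt_pow 2 b).const_mul 2).const_add 3
    simpa using this
  have h2 := h1.mul (sqrt_quad_deriv b)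
  have h3 : HasDerivAt (fun b : ℝ => b * (3 + 2 * b ^ 2)) (1 * (3 + 2 * b ^ 2) + b * (2 * (2 * b))) b :=
    (hasDerivAt_id b).mul h1'
  have h4 := h3.div h2 (by
    show 3 * (1 + b ^ 2) * √(1 + b ^ 2) ≠ 0
    positivity)
  have e : ((1 * (3 + 2 * b ^ 2) + b * (2 * (2 * b))) * (3 * (1 + b ^ 2) * √(1 + b ^ 2)) -
      b * (3 + 2 * b ^ 2) * (3 * (2 * b) * √(1 + b ^ 2) + 3 * (1 + b ^ 2) * (b / √(1 + b ^ 2)))) /
      (3 * (1 + b ^ 2) * √(1 + b ^ 2)) ^ 2 = 1 / ((1 + b ^ 2) ^ 2 * √(1 + b ^ 2)) := by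
    set S := √(1 + b ^ 2)
    have e1 : 3 * (1 + b ^ 2) * (b / S) = 3 * b * S := by
      rw [← hss]; field_simp
    rw [e1, div_eq_div_iff (by positivity) (by positivity)]
    have e2 : b ^ 2 = S ^ 2 - 1 := by linarith
    rw [← hss]
    have e3 : b * (2 * (2 * b)) = 4 * (S ^ 2 - 1) := by rw [← e2]; ring
    have e4 : b * (3 + 2 * b ^ 2) * (3 * (2 * b) * S + 3 * b * S) =
        (S ^ 2 - 1) * (3 + 2 * (S ^ 2 - 1)) * (9 * S) := by rw [← e2]; ring
    rw [e3, e4, e2]
    ring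
  simp only [Pi.mul_apply] at h4
  rw [e] at h4
  exact h4

theorem G2K_deriv (b : ℝ) :
    HasDerivAt (fun b : ℝ => -(1 / (3 * (1 + b ^ 2) * √(1 + b ^ 2))))
      (b * (1 / ((1 + b ^ 2) ^ 2 * √(1 + b ^ 2)))) b := by
  have hb : 0 < 1 + b ^ 2 := by positivity
  have hs : 0 < √(1 + b ^ 2) := Real.sqrt_pos.mpr hb
  have hss : √(1 + b ^ 2) ^ 2 = 1 + b ^ 2 := Real.sq_sqrt hb.le
  have h1 : HasDerivAt (fun b : ℝ => 3 * (1 + b ^ 2)) (3 * (2 * b)) b := by
    have := ((hasDerivAt_pow 2 b).const_add 1).const_mul 3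
    simpa using this
  have h2 := h1.mul (sqrt_quad_deriv b)
  have h4 := ((hasDerivAt_const b (1:ℝ)).div h2 (by
    show 3 * (1 + b ^ 2) * √(1 + b ^ 2) ≠ 0
    positivity)).neg
  have e : -((0 * (3 * (1 + b ^ 2) * √(1 + b ^ 2)) -
      1 * (3 * (2 * b) * √(1 + b ^ 2) + 3 * (1 + b ^ 2) * (b / √(1 + b ^ 2)))) /
      (3 * (1 + b ^ 2) * √(1 + b ^ 2)) ^ 2) = b * (1 / ((1 + b ^ 2) ^ 2 * √(1 + b ^ 2))) := by
    set S := √(1 + b ^ 2)
    have e1 : 3 * (1 + b ^ 2) * (b / S) = 3 * b * S := by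
      rw [← hss]; field_simp
    rw [e1, ← hss]
    field_simp
    ring
  simp only [Pi.mul_apply] at h4
  rw [e] at h4
  exact h4

theorem G1K_tendsto :
    Tendsto (fun b : ℝ => b * (3 + 2 * b ^ 2) / (3 * (1 + b ^ 2) * √(1 + b ^ 2))) atTop
      (𝓝 (2 / 3)) ∧
    Tendsto (fun b : ℝ => b * (3 + 2 * b ^ 2) / (3 * (1 + b ^ 2) * √(1 + b ^ 2))) atBot
      (𝓝 (-(2 / 3))) := by
  have h0 := (tendsto_inv_quad one_pos).1
  have key : Tendsto (fun b : ℝ => √(1 - 1 / (1 + b ^ 2)) * ((2 + 1 / (1 + b ^ 2)) / 3)) atTop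
      (𝓝 (2 / 3)) := by
    have h1 := ((h0.const_sub 1).sqrt).mul ((h0.const_add 2).div_const 3)
    have e : √(1 - 0) * ((2 + 0) / 3) = (2 / 3 : ℝ) := by simp
    rwa [e] at h1
  have htop : Tendsto (fun b : ℝ => b * (3 + 2 * b ^ 2) / (3 * (1 + b ^ 2) * √(1 + b ^ 2))) atTop
      (𝓝 (2 / 3)) := by
    refine key.congr' ?_
    filter_upwards [eventually_ge_atTop 0] with b hb0
    have hb : 0 < 1 + b ^ 2 := by positivity
    have e1 : 1 - 1 / (1 + b ^ 2) = b ^ 2 / (1 + b ^ 2) := by field_simp; ring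
    rw [e1, Real.sqrt_div (by positivity), Real.sqrt_sq hb0]
    have hs : 0 < √(1 + b ^ 2) := Real.sqrt_pos.mpr hb
    field_simp
    ring
  refine ⟨htop, ?_⟩
  have h2 := (htop.comp tendsto_neg_atBot_atTop).neg
  refine h2.congr fun b => ?_
  simp only [Function.comp_apply, neg_sq]
  ring

theorem G2K_tendsto :
    Tendsto (fun b : ℝ => -(1 / (3 * (1 + b ^ 2) * √(1 + b ^ 2)))) atTop (𝓝 0) ∧
    Tendsto (fun b : ℝ => -(1 / (3 * (1 + b ^ 2) * √(1 + b ^ 2)))) atBot (𝓝 0) := by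
  have e0 : ∀ b : ℝ, -(1 / (3 * (1 + b ^ 2) * √(1 + b ^ 2))) =
      (1 / (1 + b ^ 2)) * √(1 / (1 + b ^ 2)) * (-(1 / 3)) := by
    intro b
    have hb : 0 < 1 + b ^ 2 := by positivity
    have hs : 0 < √(1 + b ^ 2) := Real.sqrt_pos.mpr hb
    rw [Real.sqrt_div zero_le_one, Real.sqrt_one]
    field_simp
  simp only [e0]
  have h1 := ((tendsto_inv_quad one_pos).1.mul (tendsto_inv_quad one_pos).1.sqrt).mul_const (-(1 / 3))
  have h2 := ((tendsto_inv_quad one_pos).2.mul (tendsto_inv_quad one_pos).2.sqrt).mul_const (-(1 / 3))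
  rw [zero_mul, zero_mul] at h1 h2
  exact ⟨h1, h2⟩

/-- the support function of `K` in the plane -/
noncomputable def hK (x r : ℝ) : ℝ := (2 * x ^ 2 + r ^ 2) / √(x ^ 2 + r ^ 2)

theorem inst_K {x r : ℝ} (hr : 0 ≤ r) :
    ∫⁻ b, ENNReal.ofReal (|x - r * b| * (1 / ((1 + b ^ 2) ^ 2 * √(1 + b ^ 2)))) =
      ENNReal.ofReal (2 / 3 * hK x r) := by
  rcases hr.eq_or_lt with h | h
  · rw [← h, lint_abs_zero G1K_deriv (fun b => by positivity) G1K_tendsto.1 G1K_tendsto.2]
    congr 1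
    unfold hK
    have : √(x ^ 2 + 0 ^ 2) = |x| := by
      rw [zero_pow two_ne_zero, add_zero, Real.sqrt_sq_eq_abs]
    rw [this]
    by_cases hx : x = 0
    · simp [hx]
    · have : |x| ≠ 0 := abs_ne_zero.mpr hx
      have hx2 : x ^ 2 = |x| ^ 2 := (sq_abs x).symm
      rw [hx2]
      field_simp
      ring
  · rw [lint_abs G1K_deriv G2K_deriv (fun b => by positivity) G1K_tendsto.1 G1K_tendsto.2
      G2K_tendsto.1 G2K_tendsto.2 h]
    congr 1
    unfold hK
    have e1 : 1 + (x / r) ^ 2 = (x ^ 2 + r ^ 2) / r ^ 2 := by field_simp; ring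
    have e2 : √(1 + (x / r) ^ 2) = √(x ^ 2 + r ^ 2) / r := by
      rw [e1, Real.sqrt_div (by positivity), Real.sqrt_sq h.le]
    have hp : 0 < x ^ 2 + r ^ 2 := by positivity
    have hs : 0 < √(x ^ 2 + r ^ 2) := Real.sqrt_pos.mpr hp
    rw [e2, e1]
    field_simp
    ring

end OneDim


section Glue

theorem F_rep' {x r : ℝ} (hr : 0 < r) :
    IntegrableOn (fun u => rho u * (r / Du u + x * Real.arctan (x / r / √(Du u)) / (Du u * √(Du u))))
      (Set.Ioi 0) ∧
    ∫ u in Set.Ioi 0, rho u * (r / Du u + x * Real.arctan (x / r / √(Du u)) / (Du u * √(Du u))) =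
      r * Ff (x / r) := F_rep continuous_rho (fun _ hθ => contour hθ) hr

theorem M_rep' :
    IntegrableOn (fun u => rho u * (Real.pi / (2 * Du u * √(Du u)))) (Set.Ioi 0) ∧
    ∫ u in Set.Ioi 0, rho u * (Real.pi / (2 * Du u * √(Du u))) = 1 / 2 :=
  M_rep continuous_rho (fun _ hθ => contour hθ)

end Glue




section Zonoids

variable {E : Type*} [NormedAddCommGroup E] [InnerProductSpace ℝ E] [FiniteDimensional ℝ E]
  [MeasurableSpace E] [BorelSpace E]

theorem isZonoid_of_lint {Ω : Type*} [MeasurableSpace Ω] {μ : Measure Ω} {v : Ω → E}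
    (hvm : Measurable v) {h : E → ℝ} (hh : ∀ z, 0 ≤ h z)
    (hl : ∀ z, ∫⁻ ω, ENNReal.ofReal |inner ℝ z (v ω)| ∂μ = ENNReal.ofReal (h z)) :
    IsZonoid (suppSet h) := by
  have hmeas : ∀ z : E, Measurable fun ω => inner ℝ z (v ω) := fun z => by fun_prop
  have hint : ∀ z : E, Integrable (fun ω => inner ℝ z (v ω)) μ := by
    intro z
    refine ⟨(hmeas z).aestronglyMeasurable, ?_⟩
    rw [hasFiniteIntegral_iff_norm]
    simp only [Real.norm_eq_abs]
    rw [hl z]
    exact ENNReal.ofReal_lt_top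
  have hv : Integrable v μ := by
    have h1 : v = fun ω => ∑ i, inner ℝ (stdOrthonormalBasis ℝ E i) (v ω) •
        (stdOrthonormalBasis ℝ E i) := by
      ext ω
      exact ((stdOrthonormalBasis ℝ E).sum_repr' (v ω)).symm
    rw [h1]
    exact integrable_finsetSum _ fun i _ => (hint _).smul_const _
  have hc : cosT μ v = h := by
    funext z
    unfold cosT
    rw [integral_eq_lintegral_of_nonneg_ae (Eventually.of_forall fun _ => abs_nonneg _)
      (hmeas z).abs.aestronglyMeasurable, hl z, ENNReal.toReal_ofReal (hh z)]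
  rw [← hc]
  exact isZonoid_cosT hv

theorem hK_nonneg (x r : ℝ) : 0 ≤ hK x r := by unfold hK; positivity

theorem measurable_Pr (e : E) : Measurable (Pr e) := by unfold Pr; fun_prop

theorem zonoid_K (e : E) : IsZonoid (suppSet (fun z => hK (inner ℝ e z) ‖Pr e z‖)) := by
  have hPr := measurable_Pr e
  set c : ℝ := 3 / 2 / Real.Gamma (5 / 2) with hc
  have hG : 0 < Real.Gamma (5 / 2) := Real.Gamma_pos_of_pos (by norm_num)
  have hc0 : 0 < c := by positivity
  refine isZonoid_of_lint (μ := (volume.restrict (Set.Ioi (0:ℝ))).prod (stdGaussian E))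
    (v := fun p : ℝ × E => (c * (p.1 ^ ((5:ℝ) / 2 - 1) * Real.exp (-(1 * p.1)) * √(Real.pi / p.1))) •
      (e - (√(2 * p.1))⁻¹ • Pr e p.2)) (by fun_prop) (fun z => hK_nonneg _ _) fun z => ?_
  rw [lintegral_prod _ (by apply Measurable.aemeasurable; fun_prop)]
  have h1 : ∫⁻ l in Set.Ioi (0:ℝ), ∫⁻ g, ENNReal.ofReal |inner ℝ z
      ((c * (l ^ ((5:ℝ) / 2 - 1) * Real.exp (-(1 * l)) * √(Real.pi / l))) •
      (e - (√(2 * l))⁻¹ • Pr e g))| ∂(stdGaussian E) =
      ENNReal.ofReal c * ∫⁻ l in Set.Ioi (0:ℝ),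
        ENNReal.ofReal (l ^ ((5:ℝ) / 2 - 1) * Real.exp (-(1 * l)) * √(Real.pi / l)) *
        ∫⁻ g, ENNReal.ofReal |inner ℝ z (e - (√(2 * l))⁻¹ • Pr e g)| ∂(stdGaussian E) := by
    rw [← lintegral_const_mul' _ _ ENNReal.ofReal_ne_top]
    refine setLIntegral_congr_fun measurableSet_Ioi fun l hl => ?_
    have hl' : (0:ℝ) < l := hl
    have hA : 0 ≤ l ^ ((5:ℝ) / 2 - 1) * Real.exp (-(1 * l)) * √(Real.pi / l) := by positivity
    rw [← mul_assoc (ENNReal.ofReal c), ← ENNReal.ofReal_mul hc0.le,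
      ← lintegral_const_mul' _ _ ENNReal.ofReal_ne_top]
    refine lintegral_congr fun g => ?_
    rw [inner_smul_right, abs_mul, abs_of_nonneg (mul_nonneg hc0.le hA),
      ENNReal.ofReal_mul (mul_nonneg hc0.le hA)]
  rw [h1, mix_lint e z (by norm_num) one_pos]
  have h2 : ∫⁻ b, ENNReal.ofReal (|inner ℝ e z - ‖Pr e z‖ * b| *
        ((1 / (1 + b ^ 2)) ^ ((5:ℝ) / 2) * Real.Gamma (5 / 2))) =
      ENNReal.ofReal (Real.Gamma (5 / 2)) * ∫⁻ b, ENNReal.ofReal (|inner ℝ e z - ‖Pr e z‖ * b| *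
        (1 / ((1 + b ^ 2) ^ 2 * √(1 + b ^ 2)))) := by
    rw [← lintegral_const_mul' _ _ ENNReal.ofReal_ne_top]
    refine lintegral_congr fun b => ?_
    rw [← ENNReal.ofReal_mul hG.le]
    congr 1
    have hb : 0 < 1 + b ^ 2 := by positivity
    have e1 : (1 / (1 + b ^ 2)) ^ ((5:ℝ) / 2) = 1 / ((1 + b ^ 2) ^ 2 * √(1 + b ^ 2)) := by
      generalize 1 + b ^ 2 = s at hb
      rw [Real.div_rpow zero_le_one hb.le, Real.one_rpow, Real.sqrt_eq_rpow, ← Real.rpow_two,
        ← Real.rpow_add hb]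
      norm_num
    rw [e1]; ring
  rw [h2, inst_K (norm_nonneg _), ← mul_assoc, ← ENNReal.ofReal_mul hc0.le,
    ← ENNReal.ofReal_mul (by positivity)]
  congr 1
  rw [hc]
  field_simp

/-- the norm of `K` in the plane -/
noncomputable def nN (x r : ℝ) : ℝ := if r = 0 then |x| / 2 else r * Ff (x / r)

theorem Ff_pos (x : ℝ) : 0 < Ff x := by unfold Ff; positivity

theorem nN_nonneg {x r : ℝ} (hr : 0 ≤ r) : 0 ≤ nN x r := by
  unfold nN
  split_ifs
  · positivity
  · exact mul_nonneg hr (Ff_pos _).le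

theorem zonoid_N (e : E) : IsZonoid (suppSet (fun z => nN (inner ℝ e z) ‖Pr e z‖)) := by
  have hPr := measurable_Pr e
  have hρm : Measurable rho := continuous_rho.measurable
  have hDm : Measurable Du := continuous_Du.measurable
  refine isZonoid_of_lint (μ := (volume.restrict (Set.Ioi (0:ℝ))).prod
      ((volume.restrict (Set.Ioi (0:ℝ))).prod (stdGaussian E)))
    (v := fun p : ℝ × (ℝ × E) => (rho p.1 * (p.2.1 ^ ((2:ℝ) - 1) * Real.exp (-(Du p.1 * p.2.1)) *
      √(Real.pi / p.2.1))) • (e - (√(2 * p.2.1))⁻¹ • Pr e p.2.2)) (by fun_prop)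
      (fun z => nN_nonneg (norm_nonneg _)) fun z => ?_
  rw [lintegral_prod _ (by apply Measurable.aemeasurable; fun_prop)]
  have hinner : ∀ u : ℝ, 0 < u → ∫⁻ q : ℝ × E, ENNReal.ofReal |inner ℝ z
      ((rho u * (q.1 ^ ((2:ℝ) - 1) * Real.exp (-(Du u * q.1)) * √(Real.pi / q.1))) •
      (e - (√(2 * q.1))⁻¹ • Pr e q.2))| ∂((volume.restrict (Set.Ioi (0:ℝ))).prod (stdGaussian E)) =
      ENNReal.ofReal (rho u) * ∫⁻ b, ENNReal.ofReal (|inner ℝ e z - ‖Pr e z‖ * b| *
        (1 / (Du u + b ^ 2) ^ 2)) := by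
    intro u hu
    have hr0 := rho_nonneg hu.le
    have hD0 : 0 < Du u := by have := one_le_Du u; linarith
    rw [lintegral_prod _ (by apply Measurable.aemeasurable; fun_prop)]
    have h1 : ∫⁻ l in Set.Ioi (0:ℝ), ∫⁻ g, ENNReal.ofReal |inner ℝ z
        ((rho u * (l ^ ((2:ℝ) - 1) * Real.exp (-(Du u * l)) * √(Real.pi / l))) •
        (e - (√(2 * l))⁻¹ • Pr e g))| ∂(stdGaussian E) =
        ENNReal.ofReal (rho u) * ∫⁻ l in Set.Ioi (0:ℝ),
          ENNReal.ofReal (l ^ ((2:ℝ) - 1) * Real.exp (-(Du u * l)) * √(Real.pi / l)) *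
          ∫⁻ g, ENNReal.ofReal |inner ℝ z (e - (√(2 * l))⁻¹ • Pr e g)| ∂(stdGaussian E) := by
      rw [← lintegral_const_mul' _ _ ENNReal.ofReal_ne_top]
      refine setLIntegral_congr_fun measurableSet_Ioi fun l hl => ?_
      have hl' : (0:ℝ) < l := hl
      have hA : 0 ≤ l ^ ((2:ℝ) - 1) * Real.exp (-(Du u * l)) * √(Real.pi / l) := by positivity
      rw [← mul_assoc (ENNReal.ofReal (rho u)), ← ENNReal.ofReal_mul hr0,
        ← lintegral_const_mul' _ _ ENNReal.ofReal_ne_top]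
      refine lintegral_congr fun g => ?_
      rw [inner_smul_right, abs_mul, abs_of_nonneg (mul_nonneg hr0 hA),
        ENNReal.ofReal_mul (mul_nonneg hr0 hA)]
    rw [h1, mix_lint e z (by norm_num) hD0]
    congr 1
    refine lintegral_congr fun b => ?_
    have hb : 0 < Du u + b ^ 2 := by positivity
    rw [Real.Gamma_two, mul_one, Real.div_rpow zero_le_one hb.le, Real.one_rpow, Real.rpow_two]
  rw [setLIntegral_congr_fun measurableSet_Ioi (fun u hu => hinner u hu)]
  rcases (norm_nonneg (Pr e z)).eq_or_lt with h0 | h0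
  · rw [← h0]
    have h3 : ∫⁻ u in Set.Ioi (0:ℝ), ENNReal.ofReal (rho u) *
        ∫⁻ b, ENNReal.ofReal (|inner ℝ e z - 0 * b| * (1 / (Du u + b ^ 2) ^ 2)) =
        ENNReal.ofReal |inner ℝ e z| * ∫⁻ u in Set.Ioi (0:ℝ),
          ENNReal.ofReal (rho u * (Real.pi / (2 * Du u * √(Du u)))) := by
      rw [← lintegral_const_mul' _ _ ENNReal.ofReal_ne_top]
      refine setLIntegral_congr_fun measurableSet_Ioi fun u hu => ?_
      have hD0 : 0 < Du u := by have := one_le_Du u; linarith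
      rw [inst_D_zero hD0, ← ENNReal.ofReal_mul (rho_nonneg (le_of_lt hu)),
        ← ENNReal.ofReal_mul (abs_nonneg _)]
      congr 1; ring
    rw [h3, ← ofReal_integral_eq_lintegral_ofReal M_rep'.1, M_rep'.2,
      ← ENNReal.ofReal_mul (abs_nonneg _)]
    · congr 1
      unfold nN
      rw [if_pos rfl]; ring
    · refine (ae_restrict_iff' measurableSet_Ioi).mpr (Eventually.of_forall fun u hu => ?_)
      have := rho_nonneg (le_of_lt hu)
      have := one_le_Du u
      have hpi := Real.pi_pos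
      show 0 ≤ rho u * (Real.pi / (2 * Du u * √(Du u)))
      positivity
  · set r := ‖Pr e z‖ with hr
    have h3 : ∫⁻ u in Set.Ioi (0:ℝ), ENNReal.ofReal (rho u) *
        ∫⁻ b, ENNReal.ofReal (|inner ℝ e z - r * b| * (1 / (Du u + b ^ 2) ^ 2)) =
        ∫⁻ u in Set.Ioi (0:ℝ), ENNReal.ofReal (rho u * (r / Du u + inner ℝ e z *
          Real.arctan (inner ℝ e z / r / √(Du u)) / (Du u * √(Du u)))) := by
      refine setLIntegral_congr_fun measurableSet_Ioi fun u hu => ?_
      have hD0 : 0 < Du u := by have := one_le_Du u; linarith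
      rw [inst_D hD0 h0, ← ENNReal.ofReal_mul (rho_nonneg (le_of_lt hu))]
    rw [h3, ← ofReal_integral_eq_lintegral_ofReal (F_rep' h0).1, (F_rep' h0).2]
    · unfold nN
      rw [if_neg h0.ne']
    · refine (ae_restrict_iff' measurableSet_Ioi).mpr (Eventually.of_forall fun u hu => ?_)
      have h1 := rho_nonneg (le_of_lt hu)
      have h2 := one_le_Du u
      have h4 : 0 ≤ inner ℝ e z * Real.arctan (inner ℝ e z / r / √(Du u)) := by
        rcases le_total 0 (inner ℝ e z) with h | h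
        · exact mul_nonneg h (Real.arctan_nonneg.mpr (by positivity))
        · have h5 : inner ℝ e z / r / √(Du u) ≤ 0 :=
            div_nonpos_of_nonpos_of_nonneg (div_nonpos_of_nonpos_of_nonneg h h0.le)
              (Real.sqrt_nonneg _)
          exact mul_nonneg_of_nonpos_of_nonpos h
            ((Real.arctan_strictMono.monotone h5).trans_eq Real.arctan_zero)
      show 0 ≤ rho u * (r / Du u + inner ℝ e z *
          Real.arctan (inner ℝ e z / r / √(Du u)) / (Du u * √(Du u)))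
      positivity

end Zonoids





section Duality

theorem apar_inv (a : ℝ) : apar (a * (3 + 2 * a ^ 2)) = a := by
  have h := apar_eq (a * (3 + 2 * a ^ 2))
  set b := apar (a * (3 + 2 * a ^ 2))
  have h2 : (b - a) * (3 + 2 * (a ^ 2 + a * b + b ^ 2)) = 0 := by linear_combination h
  rcases mul_eq_zero.mp h2 with h3 | h3
  · linarith
  · nlinarith [sq_nonneg (a + b), sq_nonneg a, sq_nonneg b]

/-- Cauchy-Schwarz in the plane, `r > 0` -/
theorem cs_pos {x r x' r' : ℝ} (hr : 0 < r) :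
    x' * x + r' * r ≤ hK x' r' * nN x r := by
  by_cases h0 : x' ^ 2 + r' ^ 2 = 0
  · have h1 : x' = 0 := by nlinarith [sq_nonneg x', sq_nonneg r']
    have h2 : r' = 0 := by nlinarith [sq_nonneg x', sq_nonneg r']
    rw [h1, h2]
    have := mul_nonneg (hK_nonneg 0 0) (nN_nonneg (x := x) hr.le)
    linarith
  · have hp : 0 < x' ^ 2 + r' ^ 2 := lt_of_le_of_ne (by positivity) (Ne.symm h0)
    have hs : 0 < √(x' ^ 2 + r' ^ 2) := Real.sqrt_pos.mpr hp
    have hss : √(x' ^ 2 + r' ^ 2) ^ 2 = x' ^ 2 + r' ^ 2 := Real.sq_sqrt hp.le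
    unfold nN hK
    rw [if_neg hr.ne']
    set a := apar (x / r) with ha
    have hx : x = r * (a * (3 + 2 * a ^ 2)) := by
      rw [ha, apar_eq]; field_simp
    unfold Ff
    rw [← ha]
    have hb : 0 < 1 + a ^ 2 := by positivity
    have ht : 0 < √(1 + a ^ 2) := Real.sqrt_pos.mpr hb
    have htt : √(1 + a ^ 2) ^ 2 = 1 + a ^ 2 := Real.sq_sqrt hb.le
    have key : (x' * (a * (3 + 2 * a ^ 2)) + r') * √(x' ^ 2 + r' ^ 2) ≤
        (2 * x' ^ 2 + r' ^ 2) * ((1 + a ^ 2) * √(1 + a ^ 2)) := by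
      refine (abs_le_of_sq_le_sq' ?_ (by positivity)).2
      have e1 : ((x' * (a * (3 + 2 * a ^ 2)) + r') * √(x' ^ 2 + r' ^ 2)) ^ 2 =
          (x' * (a * (3 + 2 * a ^ 2)) + r') ^ 2 * (x' ^ 2 + r' ^ 2) := by
        rw [mul_pow, hss]
      have e2 : ((2 * x' ^ 2 + r' ^ 2) * ((1 + a ^ 2) * √(1 + a ^ 2))) ^ 2 =
          (2 * x' ^ 2 + r' ^ 2) ^ 2 * (1 + a ^ 2) ^ 3 := by
        rw [mul_pow, mul_pow, htt]; ring
      rw [e1, e2]
      have hb' : 0 ≤ (4 + 3 * a ^ 2) * x' ^ 2 + (2 * a + 2 * a ^ 3) * (x' * r') +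
          (3 + 3 * a ^ 2 + a ^ 4) * r' ^ 2 := by
        nlinarith [sq_nonneg (a * x' + (1 + a ^ 2) * r'), sq_nonneg (a * x'), sq_nonneg (a * r'),
          sq_nonneg x', sq_nonneg r', sq_nonneg (a ^ 2 * r')]
      nlinarith [mul_nonneg (sq_nonneg (x' - a * r')) hb']
    have e3 : x' * x + r' * r = r * (x' * (a * (3 + 2 * a ^ 2)) + r') := by rw [hx]; ring
    have e4 : (2 * x' ^ 2 + r' ^ 2) / √(x' ^ 2 + r' ^ 2) * (r * ((1 + a ^ 2) * √(1 + a ^ 2))) =
        r * ((2 * x' ^ 2 + r' ^ 2) * ((1 + a ^ 2) * √(1 + a ^ 2)) / √(x' ^ 2 + r' ^ 2)) := by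
      ring
    rw [e3, e4]
    apply mul_le_mul_of_nonneg_left _ hr.le
    rwa [le_div_iff₀ hs]

theorem hK_zero_le {x' r' : ℝ} : 2 * |x'| ≤ hK x' r' := by
  by_cases h0 : x' ^ 2 + r' ^ 2 = 0
  · have h1 : x' = 0 := by nlinarith [sq_nonneg x', sq_nonneg r']
    rw [h1, abs_zero, mul_zero]
    exact hK_nonneg _ _
  · have hp : 0 < x' ^ 2 + r' ^ 2 := lt_of_le_of_ne (by positivity) (Ne.symm h0)
    have hs : 0 < √(x' ^ 2 + r' ^ 2) := Real.sqrt_pos.mpr hp
    have hss : √(x' ^ 2 + r' ^ 2) ^ 2 = x' ^ 2 + r' ^ 2 := Real.sq_sqrt hp.le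
    unfold hK
    rw [le_div_iff₀ hs]
    refine (abs_le_of_sq_le_sq' ?_ (by positivity)).2
    rw [mul_pow, mul_pow, hss, sq_abs]
    nlinarith [sq_nonneg (r' ^ 2)]

theorem cs {x r x' r' : ℝ} (hr : 0 ≤ r) :
    x' * x + r' * r ≤ hK x' r' * nN x r := by
  rcases hr.eq_or_lt with h | h
  · rw [← h]
    unfold nN
    rw [if_pos rfl]
    have h1 : x' * x ≤ |x'| * |x| := by rw [← abs_mul]; exact le_abs_self _
    have h2 := @hK_zero_le x' r'
    have h3 := abs_nonneg x
    nlinarith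
  · exact cs_pos h

/-- equality case -/
theorem cs_eq {x' r' : ℝ} (hr : 0 < r') :
    ∃ x : ℝ, x' * x + r' * 1 = hK x' r' * nN x 1 := by
  set a := x' / r' with ha
  refine ⟨a * (3 + 2 * a ^ 2), ?_⟩
  unfold nN
  rw [if_neg one_ne_zero, div_one, one_mul]
  unfold Ff hK
  rw [apar_inv]
  have hx : x' = r' * a := by rw [ha]; field_simp
  have hb : 0 < 1 + a ^ 2 := by positivity
  have ht : 0 < √(1 + a ^ 2) := Real.sqrt_pos.mpr hb
  have e1 : √(x' ^ 2 + r' ^ 2) = r' * √(1 + a ^ 2) := by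
    have : x' ^ 2 + r' ^ 2 = r' ^ 2 * (1 + a ^ 2) := by rw [hx]; ring
    rw [this, Real.sqrt_mul (by positivity), Real.sqrt_sq hr.le]
  rw [e1, hx]
  field_simp
  ring

variable {E : Type*} [NormedAddCommGroup E] [InnerProductSpace ℝ E]

/-- the support function of the first body -/
noncomputable def hE (e z : E) : ℝ := hK (inner ℝ e z) ‖Pr e z‖

noncomputable def nE (e z : E) : ℝ := nN (inner ℝ e z) ‖Pr e z‖

theorem Pr_add (e z w : E) : Pr e (z + w) = Pr e z + Pr e w := by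
  unfold Pr; rw [inner_add_right, add_smul]; abel

theorem Pr_smul (e : E) (c : ℝ) (z : E) : Pr e (c • z) = c • Pr e z := by
  unfold Pr; rw [inner_smul_right, smul_sub, smul_smul]

theorem inner_e_Pr {e : E} (he : ‖e‖ = 1) (z : E) : inner ℝ e (Pr e z) = 0 := by
  unfold Pr
  rw [inner_sub_right, inner_smul_right, real_inner_self_eq_norm_sq, he]; ring

theorem Pr_Pr {e : E} (he : ‖e‖ = 1) (z : E) : Pr e (Pr e z) = Pr e z := by
  conv_lhs => rw [Pr, inner_e_Pr he]
  simp

theorem Pr_self {e : E} (he : ‖e‖ = 1) : Pr e e = 0 := by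
  unfold Pr; rw [real_inner_self_eq_norm_sq, he]; simp

theorem inner_decomp {e : E} (he : ‖e‖ = 1) (w z : E) :
    inner ℝ w z = inner ℝ e w * inner ℝ e z + inner ℝ (Pr e w) (Pr e z) := by
  rw [← inner_Pr, Pr_Pr he]
  conv_rhs => rw [Pr, inner_sub_right, inner_smul_right, real_inner_comm e w]
  ring

theorem norm_sq_decomp {e : E} (he : ‖e‖ = 1) (w : E) :
    (inner ℝ e w) ^ 2 + ‖Pr e w‖ ^ 2 = ‖w‖ ^ 2 := by
  have h := inner_decomp he w w
  rw [real_inner_self_eq_norm_sq, real_inner_self_eq_norm_sq] at h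
  rw [h]; ring

theorem hK_hom {c x r : ℝ} : hK (c * x) (|c| * r) = |c| * hK x r := by
  unfold hK
  have e1 : (c * x) ^ 2 + (|c| * r) ^ 2 = |c| ^ 2 * (x ^ 2 + r ^ 2) := by
    rw [mul_pow, mul_pow, sq_abs]; ring
  have e2 : 2 * (c * x) ^ 2 + (|c| * r) ^ 2 = |c| ^ 2 * (2 * x ^ 2 + r ^ 2) := by
    rw [mul_pow, mul_pow, sq_abs]; ring
  rw [e1, e2, Real.sqrt_mul (by positivity), Real.sqrt_sq (abs_nonneg c)]
  by_cases hc : |c| = 0
  · rw [hc]; simp
  · field_simp

theorem hE_smul (e : E) (c : ℝ) (z : E) : hE e (c • z) = |c| * hE e z := by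
  unfold hE
  rw [inner_smul_right, Pr_smul, norm_smul, Real.norm_eq_abs, hK_hom]

theorem hE_bounds {e : E} (he : ‖e‖ = 1) (w : E) : ‖w‖ ≤ hE e w ∧ hE e w ≤ 2 * ‖w‖ := by
  have h := norm_sq_decomp he w
  unfold hE hK
  rw [h, Real.sqrt_sq (norm_nonneg _)]
  by_cases h0 : ‖w‖ = 0
  · rw [h0]; simp
  · have hp : 0 < ‖w‖ := lt_of_le_of_ne (norm_nonneg _) (Ne.symm h0)
    rw [le_div_iff₀ hp, div_le_iff₀ hp]
    constructor
    · nlinarith [sq_nonneg (inner ℝ e w : ℝ)]
    · nlinarith [sq_nonneg ‖Pr e w‖]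

theorem cs_E {e : E} (he : ‖e‖ = 1) (w z : E) : inner ℝ w z ≤ hE e w * nE e z := by
  rw [inner_decomp he]
  refine le_trans ?_ (cs (norm_nonneg (Pr e z)))
  gcongr
  exact real_inner_le_norm _ _

theorem cs_E_eq {e : E} (he : ‖e‖ = 1) (w : E) :
    ∃ z, 0 < nE e z ∧ inner ℝ w z = hE e w * nE e z := by
  rcases (norm_nonneg (Pr e w)).eq_or_lt with h | h
  · have hnE : nE e e = 1 / 2 := by
      unfold nE nN
      rw [Pr_self he, norm_zero, if_pos rfl, real_inner_self_eq_norm_sq, he]; norm_num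
    have hhE : hE e w = 2 * |inner ℝ e w| := by
      unfold hE hK
      rw [← h]
      have e1 : √((inner ℝ e w) ^ 2 + 0 ^ 2) = |inner ℝ e w| := by
        rw [zero_pow two_ne_zero, add_zero, Real.sqrt_sq_eq_abs]
      rw [e1]
      by_cases hx : (inner ℝ e w : ℝ) = 0
      · rw [hx]; simp
      · have : |(inner ℝ e w : ℝ)| ≠ 0 := abs_ne_zero.mpr hx
        rw [← sq_abs (inner ℝ e w : ℝ)]
        field_simp
        ring
    have hneg : nE e (-e) = 1 / 2 := by
      unfold nE nN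
      have : Pr e (-e) = 0 := by
        have := Pr_smul e (-1) e
        rw [neg_one_smul, Pr_self he, smul_zero] at this
        exact this
      rw [this, norm_zero, if_pos rfl, inner_neg_right, real_inner_self_eq_norm_sq, he]; norm_num
    rcases le_total 0 (inner ℝ e w : ℝ) with h2 | h2
    · refine ⟨e, by rw [hnE]; norm_num, ?_⟩
      rw [hnE, hhE, abs_of_nonneg h2, real_inner_comm]; ring
    · refine ⟨-e, by rw [hneg]; norm_num, ?_⟩
      rw [hneg, hhE, abs_of_nonpos h2, inner_neg_right, real_inner_comm]; ring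
  · obtain ⟨x, hx⟩ := cs_eq (x' := inner ℝ e w) h
    set u : E := ‖Pr e w‖⁻¹ • Pr e w with hu
    have hu1 : ‖u‖ = 1 := by
      rw [hu, norm_smul, norm_inv, norm_norm]; field_simp
    have heu : inner ℝ e u = 0 := by rw [hu, inner_smul_right, inner_e_Pr he, mul_zero]
    have hPu : Pr e u = u := by rw [hu, Pr_smul, Pr_Pr he]
    have h1 : inner ℝ e (x • e + u) = x := by
      rw [inner_add_right, inner_smul_right, real_inner_self_eq_norm_sq, he, heu]; ring
    have h2 : Pr e (x • e + u) = u := by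
      rw [Pr_add, Pr_smul, Pr_self he, hPu]; simp
    have hn : nE e (x • e + u) = nN x 1 := by
      unfold nE; rw [h1, h2, hu1]
    refine ⟨x • e + u, ?_, ?_⟩
    · rw [hn]; unfold nN; rw [if_neg one_ne_zero]; have := Ff_pos (x / 1); positivity
    · rw [hn]
      have h3 : inner ℝ (Pr e w) u = ‖Pr e w‖ := by
        rw [hu, inner_smul_right, real_inner_self_eq_norm_sq]; field_simp
      rw [inner_decomp he, h1, h2, h3]
      unfold hE
      rw [← hx]; ring

theorem suppSet_nE {e : E} (he : ‖e‖ = 1) : suppSet (nE e) = {w | hE e w ≤ 1} := by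
  ext w
  constructor
  · intro hw
    obtain ⟨z, hz, hwz⟩ := cs_E_eq he w
    have h := hw z
    rw [hwz] at h
    by_contra hcon
    have h1 : 1 < hE e w := not_le.mp hcon
    nlinarith
  · intro hw z
    have h1 : hE e w ≤ 1 := hw
    refine (cs_E he w z).trans ?_
    have := nN_nonneg (x := inner ℝ e z) (norm_nonneg (Pr e z))
    have h2 : 0 ≤ nE e z := this
    nlinarith

theorem polar_eq {e : E} (he : ‖e‖ = 1) : polarBody (suppSet (nE e)) = suppSet (hE e) := by
  rw [suppSet_nE he]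
  ext y
  constructor
  · intro hy w
    have hb := hE_bounds he w
    rcases (le_trans (norm_nonneg w) hb.1).eq_or_lt with h | h
    · have : w = 0 := by
        rw [← h] at hb
        exact norm_le_zero_iff.mp hb.1
      rw [this, inner_zero_right]
      exact hK_nonneg _ _
    · have h1 : (hE e w)⁻¹ • w ∈ {w | hE e w ≤ 1} := by
        show hE e ((hE e w)⁻¹ • w) ≤ 1
        rw [hE_smul, abs_of_pos (by positivity)]
        field_simp
        exact le_refl _
      have h2 := hy _ h1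
      rw [real_inner_smul_left, real_inner_comm] at h2
      rw [inv_mul_le_iff₀ h] at h2
      linarith
  · intro hy w hw
    have h1 : hE e w ≤ 1 := hw
    rw [real_inner_comm]
    exact (hy w).trans h1

end Duality

section Main

variable {E : Type*} [NormedAddCommGroup E] [InnerProductSpace ℝ E] [FiniteDimensional ℝ E]
  [MeasurableSpace E] [BorelSpace E]

theorem symmBody {e : E} (he : ‖e‖ = 1) : IsSymmBody (suppSet (nE e)) := by
  refine ⟨(zonoid_N e).1, suppSet_convex _, ?_, ?_⟩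
  · refine ⟨0, ?_⟩
    rw [mem_interior_iff_mem_nhds]
    refine Filter.mem_of_superset (Metric.ball_mem_nhds (0:E) (by norm_num : (0:ℝ) < 1 / 2)) ?_
    intro w hw
    rw [mem_ball_zero_iff] at hw
    rw [suppSet_nE he]
    show hE e w ≤ 1
    have := (hE_bounds he w).2
    linarith
  · intro w hw
    rw [suppSet_nE he] at hw ⊢
    have h1 : hE e w ≤ 1 := hw
    show hE e (-w) ≤ 1
    have h2 := hE_smul e (-1) w
    rw [neg_one_smul, abs_neg, abs_one, one_mul] at h2
    rw [h2]; exact h1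

theorem bm_lower {e f : E} (he : ‖e‖ = 1) (hf : ‖f‖ = 1) (hef : inner ℝ e f = (0:ℝ)) {c : ℝ}
    (hc : 1 ≤ c) (T : E ≃ₗ[ℝ] E) (h1 : Metric.closedBall (0:E) 1 ⊆ T '' (suppSet (nE e)))
    (h2 : T '' (suppSet (nE e)) ⊆ c • Metric.closedBall (0:E) 1) : 3 / (2 * √2) ≤ c := by
  rw [suppSet_nE he] at h1 h2
  have hc0 : 0 < c := by linarith
  have hup : ∀ w, ‖T w‖ ≤ c * hE e w := by
    intro w
    have hb := hE_bounds he w
    rcases (le_trans (norm_nonneg w) hb.1).eq_or_lt with h | h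
    · have : w = 0 := by
        rw [← h] at hb
        exact norm_le_zero_iff.mp hb.1
      rw [this, map_zero, norm_zero]
      exact mul_nonneg hc0.le (hK_nonneg _ _)
    · have h3 : T ((hE e w)⁻¹ • w) ∈ c • Metric.closedBall (0:E) 1 := by
        apply h2
        refine ⟨_, ?_, rfl⟩
        show hE e ((hE e w)⁻¹ • w) ≤ 1
        rw [hE_smul, abs_of_pos (by positivity)]
        field_simp
        exact le_refl _
      rw [smul_unitClosedBall, Real.norm_of_nonneg hc0.le, mem_closedBall_zero_iff, map_smul,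
        norm_smul, norm_inv, Real.norm_of_nonneg h.le, inv_mul_le_iff₀ h] at h3
      linarith
  have hlow : ∀ w, hE e w ≤ ‖T w‖ := by
    intro w
    by_cases h0 : w = 0
    · rw [h0, map_zero, norm_zero]
      have := (hE_bounds he (0:E)).2
      simpa using this
    · have hT : 0 < ‖T w‖ := norm_pos_iff.mpr (by simpa using h0)
      have h3 : ‖T w‖⁻¹ • T w ∈ Metric.closedBall (0:E) 1 := by
        rw [mem_closedBall_zero_iff, norm_smul, norm_inv, norm_norm]
        field_simp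
        exact le_refl _
      obtain ⟨v, hv, hvT⟩ := h1 h3
      have h4 : v = ‖T w‖⁻¹ • w := by
        apply T.injective
        rw [hvT, map_smul]
      have h5 : hE e v ≤ 1 := hv
      rw [h4, hE_smul, abs_of_pos (by positivity), inv_mul_le_iff₀ hT, mul_one] at h5
      exact h5
  -- evaluate
  have hPf : Pr e f = f := by unfold Pr; rw [hef]; simp
  have hee : inner ℝ e e = (1:ℝ) := by rw [real_inner_self_eq_norm_sq, he]; norm_num
  have hval : ∀ α β : ℝ, hE e (α • e + β • f) = (2 * α ^ 2 + β ^ 2) / √(α ^ 2 + β ^ 2) := by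
    intro α β
    unfold hE hK
    have e1 : inner ℝ e (α • e + β • f) = α := by
      rw [inner_add_right, inner_smul_right, inner_smul_right, hee, hef]; ring
    have e2 : ‖Pr e (α • e + β • f)‖ ^ 2 = β ^ 2 := by
      rw [Pr_add, Pr_smul, Pr_smul, Pr_self he, hPf, smul_zero, zero_add, norm_smul, hf, mul_one,
        Real.norm_eq_abs, sq_abs]
    rw [e1, e2]
  have h22 : √(2:ℝ) ^ 2 = 2 := Real.sq_sqrt (by norm_num)
  have h33 : √(3:ℝ) ^ 2 = 3 := Real.sq_sqrt (by norm_num)
  have v1 : hE e (e + √2 • f) = 4 / √3 := by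
    have := hval 1 (√2)
    rw [one_smul, h22] at this
    rw [this]; norm_num
  have v2 : hE e (e - √2 • f) = 4 / √3 := by
    have := hval 1 (-√2)
    rw [one_smul, neg_smul, ← sub_eq_add_neg, neg_sq, h22] at this
    rw [this]; norm_num
  have v3 : hE e e = 2 := by
    have := hval 1 0
    rw [one_smul, zero_smul, add_zero] at this
    rw [this]; norm_num
  have v4 : hE e (√2 • f) = √2 := by
    have := hval 0 (√2)
    rw [zero_smul, zero_add] at this
    rw [this, h22]
    norm_num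
  have p1 := hup (e + √2 • f)
  have p2 := hup (e - √2 • f)
  have p3 := hlow e
  have p4 := hlow (√2 • f)
  rw [v1, map_add] at p1
  rw [v2, map_sub] at p2
  rw [v3] at p3
  rw [v4] at p4
  have par := parallelogram_law_with_norm ℝ (T e) (T (√2 • f))
  have q1 : ‖T e + T (√2 • f)‖ ^ 2 ≤ (c * (4 / √3)) ^ 2 := by
    have := norm_nonneg (T e + T (√2 • f))
    gcongr
  have q2 : ‖T e - T (√2 • f)‖ ^ 2 ≤ (c * (4 / √3)) ^ 2 := by
    have := norm_nonneg (T e - T (√2 • f))
    gcongr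
  have q3 : 2 ^ 2 ≤ ‖T e‖ ^ 2 := by gcongr
  have q4 : √2 ^ 2 ≤ ‖T (√2 • f)‖ ^ 2 := by gcongr
  have q5 : (c * (4 / √3)) ^ 2 = c ^ 2 * 16 / 3 := by
    rw [mul_pow, div_pow, h33]; ring
  rw [q5] at q1 q2
  rw [h22] at q4
  have q6 : 9 / 8 ≤ c ^ 2 := by nlinarith
  rw [div_le_iff₀ (by positivity)]
  refine (abs_le_of_sq_le_sq' ?_ (by positivity)).2
  rw [mul_pow, mul_pow, h22]
  linarith

omit [FiniteDimensional ℝ E] [MeasurableSpace E] [BorelSpace E] in
theorem bm_nonempty {e : E} (he : ‖e‖ = 1) :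
    {c : ℝ | 1 ≤ c ∧ ∃ T : E ≃ₗ[ℝ] E, Metric.closedBall (0:E) 1 ⊆ T '' (suppSet (nE e)) ∧
      T '' (suppSet (nE e)) ⊆ c • Metric.closedBall (0:E) 1}.Nonempty := by
  refine ⟨2, by norm_num, LinearEquiv.smulOfNeZero ℝ E (2:ℝ) (by norm_num), ?_, ?_⟩
  · intro y hy
    rw [mem_closedBall_zero_iff] at hy
    rw [suppSet_nE he]
    refine ⟨(1 / 2 : ℝ) • y, ?_, ?_⟩
    · show hE e ((1 / 2 : ℝ) • y) ≤ 1
      rw [hE_smul, abs_of_pos (by norm_num)]
      have := (hE_bounds he y).2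
      linarith
    · show (2:ℝ) • (1 / 2 : ℝ) • y = y
      rw [smul_smul]; norm_num
  · rw [suppSet_nE he]
    rintro _ ⟨w, hw, rfl⟩
    have h1 : hE e w ≤ 1 := hw
    rw [smul_unitClosedBall, mem_closedBall_zero_iff]
    show ‖(2:ℝ) • w‖ ≤ ‖(2:ℝ)‖
    rw [norm_smul]
    have := (hE_bounds he w).1
    have h2 : ‖w‖ ≤ 1 := by linarith
    have h3 : 0 ≤ ‖(2:ℝ)‖ := norm_nonneg _
    nlinarith

end Main


section Final

/-- The example: the polar of the zonoid with support function `|z| + z₀² / |z|`. -/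
noncomputable def exBody (n : ℕ) (hn : 1 ≤ n) : Set (EuclideanSpace ℝ (Fin n)) :=
  suppSet (nE (EuclideanSpace.single ⟨0, hn⟩ (1:ℝ)))

theorem norm_single_one {n : ℕ} (i : Fin n) :
    ‖(EuclideanSpace.single i (1:ℝ) : EuclideanSpace ℝ (Fin n))‖ = 1 := by
  simp

theorem exBody_inClass (n : ℕ) (hn : 1 ≤ n) : InClass (exBody n hn) := by
  have he := norm_single_one (⟨0, hn⟩ : Fin n)
  refine ⟨symmBody he, zonoid_N _, ?_⟩
  unfold exBody
  rw [polar_eq he]
  exact zonoid_K _

theorem exBody_far (n : ℕ) (hn : 2 ≤ n) :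
    3 / (2 * √2) ≤ bmDist (exBody n (by omega)) (Metric.closedBall 0 1) := by
  have he := norm_single_one (⟨0, by omega⟩ : Fin n)
  have hf := norm_single_one (⟨1, by omega⟩ : Fin n)
  have hef : inner ℝ (EuclideanSpace.single (⟨0, by omega⟩ : Fin n) (1:ℝ))
      (EuclideanSpace.single (⟨1, by omega⟩ : Fin n) (1:ℝ)) = (0:ℝ) := by
    rw [EuclideanSpace.inner_single_left]
    simp
  refine le_csInf (bm_nonempty he) ?_
  rintro c ⟨hc, T, h1, h2⟩
  exact bm_lower he hf hef hc T h1 h2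

/-- For every `n ≥ 2` there is a zonoid in `ℝⁿ` whose polar is a zonoid and whose Banach-Mazur
distance to the Euclidean ball is at least `3 / (2 √2) > 1`; hence the distances of members of
the classes `𝒵_n` to the Euclidean balls need not tend to `1`. -/
theorem result :
    (∀ n : ℕ, 2 ≤ n → ∃ Z : Set (EuclideanSpace ℝ (Fin n)), InClass Z ∧
      3 / (2 * √2) ≤ bmDist Z (Metric.closedBall 0 1)) ∧
    ¬ (∀ Z : (n : ℕ) → Set (EuclideanSpace ℝ (Fin n)), (∀ n, 1 ≤ n → InClass (Z n)) →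
      Tendsto (fun n => bmDist (Z n) (Metric.closedBall 0 1)) atTop (𝓝 1)) := by
  refine ⟨fun n hn => ⟨exBody n (by omega), exBody_inClass n _, exBody_far n hn⟩, ?_⟩
  intro h
  have h1 := h (fun n => if hn : 1 ≤ n then exBody n hn else ∅) (fun n hn => by
    rw [dif_pos hn]; exact exBody_inClass n hn)
  have h2 : 3 / (2 * √2) ≤ (1:ℝ) := by
    refine ge_of_tendsto h1 ?_
    filter_upwards [eventually_ge_atTop 2] with n hn
    rw [dif_pos (by omega : 1 ≤ n)]
    exact exBody_far n hn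
  have h3 : √(2:ℝ) ^ 2 = 2 := Real.sq_sqrt (by norm_num)
  have h4 : (0:ℝ) < √2 := by positivity
  rw [div_le_one (by positivity)] at h2
  nlinarith

end Final

end Pool.Agent.Results.MP_217de7_gt.ZonoidPolarFar
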